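import Pool.Agent.CG.D.Scale

/-!
# CG-D-Cover: PART D complete

PLAN.  `UU.abs`: `UU lam Lam B → UU lam |Lam| B`.
`uu_reg'`: for `y ∈ B x (R/2)` apply `uu_ball` to `B y (R/2) ⊆ B x R`: `F'_y` on `B y (R/64)`; put `E = R⁻¹^Q ∫_{B x R} ‖F‖²`; constants
`(R/2)⁻¹^Q = 2^Q R⁻¹^Q`.  `F' y := F'_y y`.  For `y1, y2 ∈ B x (R/2)` and `z ∈ B y1 (R/64) ∩ B y2 (R/64)` `F'_{y1} z = F'_{y2} z`: both are
continuous (Hölder) on this open set and a.e. equal to `F`.  So `F' z = F'_z z = F'_y z` for `z ∈ B y (R/64) ∩ B x (R/2)`: a.e. equality locally,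
hence on `B x (R/2)` (`measure_null_of_locally_null` or a countable subcover), sup bound; Hölder bound for `di y z < R/64`
inside `B y (R/64)`, and for `di y z ≥ R/64` from the sup bound (`‖a - b‖² ≤ 2‖a‖² + 2‖b‖²`, `(di/R)^(2β) ≥ 64^{-2β} ≥ 64^{-2}`).
-/

set_option autoImplicit false

namespace Pool.Agent.CG

open MeasureTheory Set Filter Topology
open scoped ContDiff ENNReal

variable {N m : ℕ}

theorem UU.abs {lam Lam : ℝ} {B : Hv m → Hv m} (hB : UU lam Lam B) : UU lam |Lam| B := by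
  refine ⟨hB.mono, fun ξ ζ => (hB.lip ξ ζ).trans ?_⟩
  exact mul_le_mul_of_nonneg_right (le_abs_self Lam) (norm_nonneg _)

private theorem sol_mono {G : Carnot N m} {Ω Ω' : Set (Pt N)} {B : Hv m → Hv m}
    {w : Pt N → ℝ} {F : Pt N → Hv m} (h : Sol G 2 Ω B w F) (hs : Ω' ⊆ Ω) : Sol G 2 Ω' B w F :=
  ⟨h.toHW.mono hs, fun φ hφ => h.eqn φ ⟨hφ.smooth, hφ.cpt, hφ.sub.trans hs⟩⟩

private theorem cont_of_bound {G : Carnot N m} {U : Set (Pt N)} {f : Pt N → Hv m} {c R β : ℝ}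
    (hβ : 0 < β)
    (h : ∀ y ∈ U, ∀ z ∈ U, ‖f y - f z‖ ^ 2 ≤ c * (G.di y z / R) ^ (2 * β)) : ContinuousOn f U := by
  intro y hy
  rw [ContinuousWithinAt, tendsto_iff_norm_sub_tendsto_zero]
  have h1 : Tendsto (fun z => c * (G.di z y / R) ^ (2 * β)) (𝓝[U] y) (𝓝 0) := by
    have hc : Continuous (fun z => c * (G.di z y / R) ^ (2 * β)) := by
      have h2 : Continuous (fun z => G.di z y) :=
        G.continuous_di.comp (continuous_id.prodMk continuous_const)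
      exact continuous_const.mul ((h2.div_const R).rpow_const (fun _ => Or.inr (by positivity)))
    have h3 := (hc.tendsto y).mono_left (nhdsWithin_le_nhds (s := U))
    simpa [G.di_self, Real.zero_rpow (by positivity : (2 * β) ≠ 0)] using h3
  have h4 : Tendsto (fun z => ‖f z - f y‖ ^ 2) (𝓝[U] y) (𝓝 0) := by
    refine squeeze_zero' (Eventually.of_forall fun _ => by positivity) ?_ h1
    filter_upwards [self_mem_nhdsWithin] with z hz
    exact h z hz y hy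
  have h5 := h4.sqrt
  simpa [Real.sqrt_sq (norm_nonneg _)] using h5

/-- PART D: Hölder continuity of the gradient for the class `UU`. -/
theorem uu_reg' (G : Carnot N m) {lam Lam : ℝ} (hlam : 0 < lam) : ∃ β : ℝ, 0 < β ∧ β < 1 ∧
    ∃ C : ℝ, 0 < C ∧ ∀ (x : Pt N) (R : ℝ), 0 < R → ∀ (B : Hv m → Hv m), UU lam Lam B →
    ∀ (w : Pt N → ℝ) (F : Pt N → Hv m), Sol G 2 (G.B x R) B w F →
    IntegrableOn (fun y => ‖F y‖ ^ 2) (G.B x R) →
    ∃ F' : Pt N → Hv m, (∀ᵐ y, y ∈ G.B x (R / 2) → F y = F' y) ∧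
      (∀ y ∈ G.B x (R / 2), ‖F' y‖ ^ 2 ≤ C * (R⁻¹ ^ G.Q * ∫ z in G.B x R, ‖F z‖ ^ 2)) ∧
      ∀ y ∈ G.B x (R / 2), ∀ z ∈ G.B x (R / 2),
        ‖F' y - F' z‖ ^ 2 ≤
          C * (G.di y z / R) ^ (2 * β) * (R⁻¹ ^ G.Q * ∫ z in G.B x R, ‖F z‖ ^ 2) := by
  classical
  obtain ⟨β, hβ0, hβ1, C, hC, hmain⟩ := uu_ball G hlam (abs_nonneg Lam)
  refine ⟨β, hβ0, hβ1, 4 * 64 ^ 2 * (C * 2 ^ G.Q), by positivity, ?_⟩
  intro x R hR B hB w F hS hI
  set E : ℝ := R⁻¹ ^ G.Q * ∫ z in G.B x R, ‖F z‖ ^ 2 with hE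
  have hE0 : 0 ≤ E := by
    rw [hE]
    have : 0 ≤ ∫ z in G.B x R, ‖F z‖ ^ 2 := integral_nonneg fun _ => by positivity
    positivity
  -- the small balls
  have hsub : ∀ y ∈ G.B x (R / 2), G.B y (R / 2) ⊆ G.B x R := by
    intro y hy z hz
    have h1 := G.di_triangle x y z
    have h2 : G.di x y < R / 2 := hy
    have h3 : G.di y z < R / 2 := hz
    show G.di x z < R
    linarith
  have hR2 : (0 : ℝ) < R / 2 := by linarith
  have hloc : ∀ y ∈ G.B x (R / 2), ∃ F' : Pt N → Hv m,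
      (∀ᵐ z, z ∈ G.B y (R / 64) → F z = F' z) ∧
      (∀ z ∈ G.B y (R / 64), ‖F' z‖ ^ 2 ≤ C * 2 ^ G.Q * E) ∧
      ∀ z1 ∈ G.B y (R / 64), ∀ z2 ∈ G.B y (R / 64),
        ‖F' z1 - F' z2‖ ^ 2 ≤ 4 * (C * 2 ^ G.Q) * E * (G.di z1 z2 / R) ^ (2 * β) := by
    intro y hy
    obtain ⟨F', h1, h2, h3⟩ := hmain y (R / 2) hR2 B hB.abs w F (sol_mono hS (hsub y hy))
      (hI.mono_set (hsub y hy))
    have hrad : R / 2 / 32 = R / 64 := by ring
    rw [hrad] at h1 h2 h3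
    have hEy : (R / 2)⁻¹ ^ G.Q * ∫ z in G.B y (R / 2), ‖F z‖ ^ 2 ≤ 2 ^ G.Q * E := by
      have h4 : ∫ z in G.B y (R / 2), ‖F z‖ ^ 2 ≤ ∫ z in G.B x R, ‖F z‖ ^ 2 :=
        setIntegral_mono_set hI (ae_of_all _ fun _ => by positivity)
          (LE.le.eventuallyLE (hsub y hy))
      have h5 : (R / 2)⁻¹ ^ G.Q = 2 ^ G.Q * R⁻¹ ^ G.Q := by
        rw [← mul_pow]
        congr 1
        field_simp
      rw [h5, hE, mul_assoc]
      have h6 : 0 ≤ R⁻¹ ^ G.Q := by positivity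
      exact mul_le_mul_of_nonneg_left (mul_le_mul_of_nonneg_left h4 h6) (by positivity)
    have hE2 : 0 ≤ (R / 2)⁻¹ ^ G.Q * ∫ z in G.B y (R / 2), ‖F z‖ ^ 2 := by
      have : 0 ≤ ∫ z in G.B y (R / 2), ‖F z‖ ^ 2 := integral_nonneg fun _ => by positivity
      positivity
    refine ⟨F', h1, fun z hz => (h2 z hz).trans ?_, fun z1 hz1 z2 hz2 => (h3 z1 hz1 z2 hz2).trans ?_⟩
    · rw [mul_assoc]
      exact mul_le_mul_of_nonneg_left hEy hC.le
    · have h7 : (G.di z1 z2 / (R / 2)) ^ (2 * β) ≤ 4 * (G.di z1 z2 / R) ^ (2 * β) := by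
        have h8 : G.di z1 z2 / (R / 2) = 2 * (G.di z1 z2 / R) := by field_simp
        have hd : 0 ≤ G.di z1 z2 / R := div_nonneg (G.di_nonneg _ _) hR.le
        rw [h8, Real.mul_rpow (by norm_num) hd]
        refine mul_le_mul_of_nonneg_right ?_ (Real.rpow_nonneg hd _)
        calc (2 : ℝ) ^ (2 * β) ≤ 2 ^ (2 : ℝ) :=
              Real.rpow_le_rpow_of_exponent_le (by norm_num) (by linarith)
          _ = 4 := by norm_num
      calc C * (G.di z1 z2 / (R / 2)) ^ (2 * β) *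
            ((R / 2)⁻¹ ^ G.Q * ∫ z in G.B y (R / 2), ‖F z‖ ^ 2)
          ≤ C * (4 * (G.di z1 z2 / R) ^ (2 * β)) * (2 ^ G.Q * E) := by
            refine mul_le_mul (mul_le_mul_of_nonneg_left h7 hC.le) hEy hE2 ?_
            have hd : 0 ≤ G.di z1 z2 / R := div_nonneg (G.di_nonneg _ _) hR.le
            have := Real.rpow_nonneg hd (2 * β)
            positivity
        _ = 4 * (C * 2 ^ G.Q) * E * (G.di z1 z2 / R) ^ (2 * β) := by ring
  choose! Fl hF1 hF2 hF3 using hloc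
  have hcont : ∀ y ∈ G.B x (R / 2), ContinuousOn (Fl y) (G.B y (R / 64)) := fun y hy =>
    cont_of_bound hβ0 (hF3 y hy)
  have hself : ∀ y, y ∈ G.B y (R / 64) := by
    intro y
    show G.di y y < R / 64
    rw [G.di_self]
    positivity
  have hcons : ∀ y1 ∈ G.B x (R / 2), ∀ y2 ∈ G.B x (R / 2), ∀ z, z ∈ G.B y1 (R / 64) →
      z ∈ G.B y2 (R / 64) → Fl y1 z = Fl y2 z := by
    intro y1 hy1 y2 hy2 z hz1 hz2
    have hU : IsOpen (G.B y1 (R / 64) ∩ G.B y2 (R / 64)) := (G.isOpen_B _ _).inter (G.isOpen_B _ _)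
    have hae : Fl y1 =ᵐ[volume.restrict (G.B y1 (R / 64) ∩ G.B y2 (R / 64))] Fl y2 := by
      rw [Filter.EventuallyEq, ae_restrict_iff' hU.measurableSet]
      filter_upwards [hF1 y1 hy1, hF1 y2 hy2] with a h1 h2 ha
      rw [← h1 ha.1, ← h2 ha.2]
    exact Measure.eqOn_open_of_ae_eq hae hU ((hcont y1 hy1).mono inter_subset_left)
      ((hcont y2 hy2).mono inter_subset_right) ⟨hz1, hz2⟩
  refine ⟨fun z => Fl z z, ?_, ?_, ?_⟩
  · have hnull : volume {z | z ∈ G.B x (R / 2) ∧ F z ≠ Fl z z} = 0 := by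
      refine measure_null_of_locally_null _ fun y hy => ?_
      refine ⟨{z | z ∈ G.B x (R / 2) ∧ F z ≠ Fl z z} ∩ G.B y (R / 64),
        inter_mem self_mem_nhdsWithin (mem_nhdsWithin_of_mem_nhds
          ((G.isOpen_B _ _).mem_nhds (hself y))), ?_⟩
      refine measure_mono_null ?_ (hF1 y hy.1)
      rintro z ⟨⟨hz1, hz2⟩, hz3⟩ hz
      apply hz2
      rw [hz hz3]
      exact hcons y hy.1 z hz1 z hz3 (hself z)
    filter_upwards [compl_mem_ae_iff.mpr hnull] with z hz hzB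
    by_contra hne
    exact hz ⟨hzB, hne⟩
  · intro y hy
    refine (hF2 y hy y (hself y)).trans ?_
    have h1 : 0 ≤ C * 2 ^ G.Q * E := by positivity
    nlinarith
  · intro y hy z hz
    have hd : 0 ≤ G.di y z / R := div_nonneg (G.di_nonneg _ _) hR.le
    have hP := Real.rpow_nonneg hd (2 * β)
    have hK : 0 ≤ C * 2 ^ G.Q * E := by positivity
    by_cases hlt : G.di y z < R / 64
    · have h1 : Fl z z = Fl y z := hcons z hz y hy z (hself z) hlt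
      show ‖Fl y y - Fl z z‖ ^ 2 ≤ _
      rw [h1]
      refine (hF3 y hy y (hself y) z hlt).trans ?_
      have h2 : 0 ≤ (C * 2 ^ G.Q * E) * (G.di y z / R) ^ (2 * β) := mul_nonneg hK hP
      nlinarith
    · have h1 : (1 / 64 : ℝ) ≤ G.di y z / R := by
        rw [div_le_div_iff₀ (by norm_num) hR]
        linarith
      have h2 : (1 / 64 : ℝ) ^ 2 ≤ (G.di y z / R) ^ (2 * β) := by
        calc (1 / 64 : ℝ) ^ 2 = (1 / 64 : ℝ) ^ (2 : ℝ) := by norm_num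
          _ ≤ (1 / 64 : ℝ) ^ (2 * β) :=
              Real.rpow_le_rpow_of_exponent_ge (by norm_num) (by norm_num) (by linarith)
          _ ≤ (G.di y z / R) ^ (2 * β) :=
              Real.rpow_le_rpow (by norm_num) h1 (by positivity)
      have h3 : ‖Fl y y - Fl z z‖ ^ 2 ≤ 4 * (C * 2 ^ G.Q * E) := by
        have h4 := norm_sub_le (Fl y y) (Fl z z)
        have h5 := hF2 y hy y (hself y)
        have h6 := hF2 z hz z (hself z)
        have h7 : ‖Fl y y - Fl z z‖ ^ 2 ≤ (‖Fl y y‖ + ‖Fl z z‖) ^ 2 :=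
          pow_le_pow_left₀ (norm_nonneg _) h4 2
        nlinarith [sq_nonneg (‖Fl y y‖ - ‖Fl z z‖)]
      refine h3.trans ?_
      have h8 : (C * 2 ^ G.Q * E) * (1 / 64 : ℝ) ^ 2 ≤
          (C * 2 ^ G.Q * E) * (G.di y z / R) ^ (2 * β) := mul_le_mul_of_nonneg_left h2 hK
      nlinarith

end Pool.Agent.CG
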