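import Pool.Agent.CG.C.Def
import Pool.Agent.CG.UUDef

/-!
# CG-D: definitions for the regularity theory of the class `UU`

* `HolE` : the conclusion of `dg_holder` with fixed constants
* `Gd`   : solutions on the ball `B 0 (1/2)` with a Hölder bound
* `P1 g r`: bound `C M ‖h‖^g` for the first left differences on `B 0 r`
* `P2 g r`: bound for the second left differences
* `P3 ε r`: the dyadic right difference quotients converge at the rate `2^{-jε}`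
-/

set_option autoImplicit false

namespace Pool.Agent.CG

open MeasureTheory Set Filter Topology
open scoped ContDiff ENNReal

variable {N m : ℕ}

/-- The conclusion of `dg_holder` with fixed constants. -/
def HolE (G : Carnot N m) (C1 α C : ℝ) : Prop :=
  ∀ (x : Pt N) (R : ℝ), 0 < R → ∀ (v : Pt N → ℝ) (V : Pt N → Hv m),
    (∀ k0 : ℝ, DG G (G.B x R) v V k0 C1) →
    (∀ k0 : ℝ, DG G (G.B x R) (fun y => -v y) (fun y => -V y) k0 C1) →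
    IntegrableOn (fun y => v y ^ 2) (G.B x R) →
    ∃ v' : Pt N → ℝ, (∀ᵐ y, y ∈ G.B x (R / 2) → v y = v' y) ∧
      (∀ y ∈ G.B x (R / 2), v' y ^ 2 ≤ C * (R⁻¹ ^ G.Q * ∫ z in G.B x R, v z ^ 2)) ∧
      ∀ y ∈ G.B x (R / 2), ∀ z ∈ G.B x (R / 2),
        |v' y - v' z| ^ 2 ≤ C * (G.di y z / R) ^ (2 * α) * (R⁻¹ ^ G.Q * ∫ z in G.B x R, v z ^ 2)

/-- Solutions on `B 0 (1/2)` with a Hölder bound. -/
structure Gd (G : Carnot N m) (α : ℝ) (B : Hv m → Hv m) (M : ℝ) (u : Pt N → ℝ)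
    (F : Pt N → Hv m) : Prop where
  sol : Sol G 2 (G.B 0 (1 / 2)) B u F
  hol : ∀ y ∈ G.B 0 (1 / 2), ∀ z ∈ G.B 0 (1 / 2), |u y - u z| ≤ M * G.di y z ^ α

/-- First differences. -/
def P1 (G : Carnot N m) (lam Lam α g r : ℝ) : Prop :=
  ∃ C δ : ℝ, 0 < C ∧ 0 < δ ∧ δ ≤ 1 ∧
    (∀ h : Pt N, ‖h‖ ≤ δ → ∀ x ∈ G.B 0 r, G.mul h x ∈ G.B 0 (1 / 2)) ∧
    ∀ (B : Hv m → Hv m) (M : ℝ) (u : Pt N → ℝ) (F : Pt N → Hv m), UU lam Lam B → 0 ≤ M →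
      Gd G α B M u F → ∀ h : Pt N, ‖h‖ ≤ δ → ∀ x ∈ G.B 0 r,
        |u (G.mul h x) - u x| ≤ C * M * ‖h‖ ^ g

/-- Second differences. -/
def P2 (G : Carnot N m) (lam Lam α g r : ℝ) : Prop :=
  ∃ C δ : ℝ, 0 < C ∧ 0 < δ ∧ δ ≤ 1 ∧
    (∀ h : Pt N, ‖h‖ ≤ 2 * δ → ∀ x ∈ G.B 0 r, G.mul h x ∈ G.B 0 (1 / 2)) ∧
    ∀ (B : Hv m → Hv m) (M : ℝ) (u : Pt N → ℝ) (F : Pt N → Hv m), UU lam Lam B → 0 ≤ M →
      Gd G α B M u F → ∀ h : Pt N, ‖h‖ ≤ δ → ∀ x ∈ G.B 0 r,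
        |u (G.mul ((2 : ℝ) • h) x) - 2 * u (G.mul h x) + u x| ≤ C * M * ‖h‖ ^ g

/-- Convergence of the dyadic difference quotients in the directions `e_k`. -/
def P3 (G : Carnot N m) (lam Lam α ε r : ℝ) : Prop :=
  ∃ (C : ℝ) (J : ℕ), 0 < C ∧
    (∀ x ∈ G.B 0 r, ∀ (k : Fin m) (j : ℕ), J ≤ j →
      G.mul x (((2 : ℝ) ^ j)⁻¹ • G.e k) ∈ G.B 0 (1 / 2)) ∧
    ∀ (B : Hv m → Hv m) (M : ℝ) (u : Pt N → ℝ) (F : Pt N → Hv m), UU lam Lam B → 0 ≤ M →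
      Gd G α B M u F → ∀ x ∈ G.B 0 r, ∀ k : Fin m, ∃ L : ℝ, |L| ≤ C * M ∧
        ∀ j : ℕ, J ≤ j →
          |2 ^ j * (u (G.mul x (((2 : ℝ) ^ j)⁻¹ • G.e k)) - u x) - L| ≤
            C * M * (((2 : ℝ) ^ j)⁻¹) ^ ε

end Pool.Agent.CG
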