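import Pool.Agent.CG.C.Quasi
import Pool.Agent.CG.UUDef
import Pool.Agent.CG.B.Trf

/-!
# CG-D-Diff: solutions and their left differences are in the De Giorgi classes

PLAN.  `int_const`: `∫ inner a (G.grad φ x) = ∑ k, a k * ∫ G.X k φ = 0` (`G.integral_X`; `PiLp.inner_apply`, each `G.X k φ` is
continuous with compact support, `G.test_X`).
`self_dg`: `dg_of_quasi` with `H x = B (F x) - B 0`, `c = lam`, `L = Lam`, `V = F`: `‖H‖ ≤ Lam ‖F‖` and
`lam ‖F‖^2 ≤ inner H F` from `UU` with `ζ = 0`; `∫ inner (H x) (grad φ) = ∫ inner (B (F x)) (grad φ) - ∫ inner (B 0) (grad φ) = 0`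
(integrability: `LqLoc 2 Ω H`: `B` is Lipschitz, so `B ∘ F` is `L²_loc` (`‖B (F x)‖ ≤ ‖B 0‖ + Lam ‖F x‖`), `grad φ` is bounded with
compact support in `Ω`).  For `-w`: `H' = -H`.
`diff_dg`: `w_h x = w (mul h x)` is a solution on `{x | mul h x ∈ Ω} ⊇ Ω'` (`Sol.left`, `HW.mono`), so `w_h - w` has gradient
`F (mul h x) - F x` on `Ω'` (`HW.sub`) and flux `H x = B (F (mul h x)) - B (F x)`; `UU` with `ξ = F (mul h x)`, `ζ = F x`.
(the equation for a solution on `Ω` holds for tests in `Ω' ⊆ Ω`: `Test` is monotone in the set.)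
The constant in `dg_of_quasi` is `4 * L ^ 2 / c ^ 2`.
-/

set_option autoImplicit false

namespace Pool.Agent.CG

open MeasureTheory Set Filter Topology
open scoped ContDiff ENNReal

variable {N m : ℕ}

theorem int_const (G : Carnot N m) (a : Hv m) {Ω : Set (Pt N)} {φ : Pt N → ℝ} (hφ : Test Ω φ) :
    ∫ x, inner ℝ a (G.grad φ x) = 0 := by
  have h1 : (fun x => inner ℝ a (G.grad φ x)) = fun x => ∑ k, G.X k φ x * a k := by
    funext x
    rw [PiLp.inner_apply]
    rfl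
  rw [h1, integral_finsetSum]
  · refine Finset.sum_eq_zero fun k _ => ?_
    rw [integral_mul_const, G.integral_X (hφ.smooth.of_le (by exact_mod_cast le_top)) hφ.cpt k,
      zero_mul]
  · intro k _
    have h2 := G.test_X hφ k
    exact (h2.smooth.continuous.integrable_of_hasCompactSupport h2.cpt).mul_const _

theorem Sol.monoD {G : Carnot N m} {q : ℝ≥0∞} {Ω Ω' : Set (Pt N)} {B : Hv m → Hv m} {w : Pt N → ℝ}
    {F : Pt N → Hv m} (hw : Sol G q Ω B w F) (hs : Ω' ⊆ Ω) : Sol G q Ω' B w F :=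
  ⟨hw.toHW.mono hs, fun φ hφ => hw.eqn φ (hφ.mono hs)⟩

private theorem UU_cont {lam Lam : ℝ} {B : Hv m → Hv m} (hB : UU lam Lam B) : Continuous B := by
  have h1 : LipschitzWith (Real.nnabs Lam) B := by
    refine LipschitzWith.of_dist_le_mul fun x y => ?_
    rw [dist_eq_norm, dist_eq_norm, Real.coe_nnabs]
    exact (hB.lip x y).trans (mul_le_mul_of_nonneg_right (le_abs_self _) (norm_nonneg _))
  exact h1.continuous

private theorem fin_restrict {K : Set (Pt N)} (hK : IsCompact K) :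
    IsFiniteMeasure ((volume : Measure (Pt N)).restrict K) :=
  ⟨by rw [Measure.restrict_apply_univ]; exact hK.measure_lt_top⟩

theorem UU.lqLoc {lam Lam : ℝ} {B : Hv m → Hv m} (hB : UU lam Lam B) {Ω : Set (Pt N)}
    {F : Pt N → Hv m} (hF : LqLoc 2 Ω F) : LqLoc 2 Ω (fun x => B (F x)) := by
  intro K hK hKΩ
  have := fin_restrict hK
  have h1 := hF K hK hKΩ
  have h2 : MemLp (fun x => ‖B 0‖ + |Lam| * ‖F x‖) 2 (volume.restrict K) :=
    (memLp_const ‖B 0‖).add (h1.norm.const_mul |Lam|)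
  refine h2.mono ((UU_cont hB).comp_aestronglyMeasurable h1.aestronglyMeasurable)
    (Eventually.of_forall fun x => ?_)
  have h3 := hB.lip (F x) 0
  rw [sub_zero] at h3
  have h4 : ‖B (F x)‖ ≤ ‖B 0‖ + ‖B (F x) - B 0‖ := by
    have := norm_add_le (B 0) (B (F x) - B 0)
    rwa [add_sub_cancel] at this
  have h5 : Lam * ‖F x‖ ≤ |Lam| * ‖F x‖ :=
    mul_le_mul_of_nonneg_right (le_abs_self _) (norm_nonneg _)
  have h6 : 0 ≤ ‖B 0‖ + |Lam| * ‖F x‖ := by positivity
  rw [Real.norm_of_nonneg h6]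
  linarith

/-- pairing of a locally square integrable field with the gradient of a test function -/
private theorem int_inner {G : Carnot N m} {Ω : Set (Pt N)} {H : Pt N → Hv m} (hH : LqLoc 2 Ω H)
    {φ : Pt N → ℝ} (hφ : Test Ω φ) : Integrable (fun x => inner ℝ (H x) (G.grad φ x)) := by
  have hK : IsCompact (tsupport φ) := hφ.cpt.isCompact
  have := fin_restrict hK
  have h1 := hH _ hK hφ.sub
  have h2 : Integrable H (volume.restrict (tsupport φ)) :=
    memLp_one_iff_integrable.1 (h1.mono_exponent (by norm_num))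
  have hgc : Continuous (G.grad φ) := (G.smooth_grad hφ.smooth).continuous
  obtain ⟨C, hC⟩ := hK.exists_bound_of_continuousOn (f := G.grad φ) hgc.continuousOn
  have hz : ∀ x, x ∉ tsupport φ → G.grad φ x = 0 := by
    intro x hx
    ext k
    show G.X k φ x = 0
    rw [G.X_eq ((hφ.smooth.differentiable (by simp)).differentiableAt) k,
      image_eq_zero_of_notMem_tsupport (fun hc => hx (tsupport_fderiv_subset ℝ hc))]
    rfl
  rw [← integrableOn_iff_integrable_of_support_subset (s := tsupport φ)]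
  · refine Integrable.mono' (h2.norm.mul_const C)
      (h2.aestronglyMeasurable.inner hgc.aestronglyMeasurable) ?_
    filter_upwards [ae_restrict_mem hK.measurableSet] with x hx
    exact (norm_inner_le_norm _ _).trans (mul_le_mul_of_nonneg_left (hC x hx) (norm_nonneg _))
  · intro x hx
    by_contra hc
    apply hx
    show inner ℝ (H x) (G.grad φ x) = 0
    rw [hz x hc, inner_zero_right]

private theorem dg_both {G : Carnot N m} {lam Lam : ℝ} (hlam : 0 < lam) (hLam : 0 ≤ Lam)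
    {Ω : Set (Pt N)} (hΩ : IsOpen Ω) {v : Pt N → ℝ} {V H : Pt N → Hv m} (hv : HW G 2 Ω v V)
    (hH : LqLoc 2 Ω H) (h1 : ∀ x, ‖H x‖ ≤ Lam * ‖V x‖)
    (h2 : ∀ x, lam * ‖V x‖ ^ 2 ≤ inner ℝ (H x) (V x))
    (h0 : ∀ φ : Pt N → ℝ, Test Ω φ → ∫ x, inner ℝ (H x) (G.grad φ x) = 0) (k0 : ℝ) :
    DG G Ω v V k0 (4 * Lam ^ 2 / lam ^ 2) ∧
      DG G Ω (fun y => -v y) (fun y => -V y) k0 (4 * Lam ^ 2 / lam ^ 2) := by
  refine ⟨dg_of_quasi hΩ hlam hLam hv hH (Eventually.of_forall fun x _ _ => h1 x)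
    (Eventually.of_forall fun x _ _ => h2 x) h0, ?_⟩
  have hv' : HW G 2 Ω (fun y => -v y) (fun y => -V y) := by
    have h3 := HW.smul (-1) hv
    simpa using h3
  have hH' : LqLoc 2 Ω (fun y => -H y) := fun K hK hKΩ => (hH K hK hKΩ).neg
  refine dg_of_quasi hΩ hlam hLam hv' hH' (Eventually.of_forall fun x _ _ => ?_)
    (Eventually.of_forall fun x _ _ => ?_) fun φ hφ => ?_
  · rw [norm_neg, norm_neg]
    exact h1 x
  · rw [norm_neg, inner_neg_neg]
    exact h2 x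
  · simp only [inner_neg_left]
    rw [integral_neg, h0 φ hφ, neg_zero]

theorem self_dg {G : Carnot N m} {lam Lam : ℝ} (hlam : 0 < lam) (hLam : 0 ≤ Lam) {B : Hv m → Hv m}
    (hB : UU lam Lam B) {Ω : Set (Pt N)} (hΩ : IsOpen Ω) {w : Pt N → ℝ} {F : Pt N → Hv m}
    (hw : Sol G 2 Ω B w F) (k0 : ℝ) :
    DG G Ω w F k0 (4 * Lam ^ 2 / lam ^ 2) ∧
      DG G Ω (fun y => -w y) (fun y => -F y) k0 (4 * Lam ^ 2 / lam ^ 2) := by
  have hBF := hB.lqLoc hw.lqg
  have hB0 : LqLoc 2 Ω (fun _ : Pt N => B 0) := fun K hK _ => by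
    have := fin_restrict hK
    exact memLp_const _
  refine dg_both hlam hLam hΩ hw.toHW (H := fun x => B (F x) - B 0)
    (fun K hK hKΩ => (hBF K hK hKΩ).sub (hB0 K hK hKΩ)) (fun x => ?_) (fun x => ?_)
    (fun φ hφ => ?_) k0
  · have h1 := hB.lip (F x) 0
    rwa [sub_zero] at h1
  · have h1 := hB.mono (F x) 0
    rwa [sub_zero] at h1
  · simp only [inner_sub_left]
    rw [integral_sub (int_inner hBF hφ) (int_inner hB0 hφ), hw.eqn φ hφ, int_const G (B 0) hφ,
      sub_zero]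

theorem diff_dg {G : Carnot N m} {lam Lam : ℝ} (hlam : 0 < lam) (hLam : 0 ≤ Lam) {B : Hv m → Hv m}
    (hB : UU lam Lam B) {Ω Ω' : Set (Pt N)} (hΩ' : IsOpen Ω') (hs : Ω' ⊆ Ω) {w : Pt N → ℝ}
    {F : Pt N → Hv m} (hw : Sol G 2 Ω B w F) {h : Pt N} (hh : ∀ x ∈ Ω', G.mul h x ∈ Ω) (k0 : ℝ) :
    DG G Ω' (fun y => w (G.mul h y) - w y) (fun y => F (G.mul h y) - F y) k0
        (4 * Lam ^ 2 / lam ^ 2) ∧
      DG G Ω' (fun y => -(w (G.mul h y) - w y)) (fun y => -(F (G.mul h y) - F y)) k0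
        (4 * Lam ^ 2 / lam ^ 2) := by
  have s1 := hw.monoD hs
  have s2 := (hw.left h).monoD (Ω' := Ω') hh
  have b1 := hB.lqLoc s1.lqg
  have b2 := hB.lqLoc s2.lqg
  refine dg_both hlam hLam hΩ' (HW.sub (by norm_num) s2.toHW s1.toHW)
    (H := fun x => B (F (G.mul h x)) - B (F x))
    (fun K hK hKΩ => (b2 K hK hKΩ).sub (b1 K hK hKΩ)) (fun x => hB.lip _ _)
    (fun x => hB.mono _ _) (fun φ hφ => ?_) k0
  simp only [inner_sub_left]
  rw [integral_sub (int_inner b2 hφ) (int_inner b1 hφ), s2.eqn φ hφ, s1.eqn φ hφ, sub_zero]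

end Pool.Agent.CG
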