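import Pool.Agent.CG.Geo

/-!
# CG-D-Geo1: conjugates of horizontal lines are lines

`Zc k x = x e_k x⁻¹`.  Then `x (t e_k) = (t Zc k x) x`.

PLAN.  `square_root`: `mul y y = mul z z → y = z` (`G.mul_self`: `mul y y = 2 • y`).
`line_of_hom` (one-parameter subgroups are lines): let `γ : ℝ → Pt N` be continuous with `γ (s + t) = mul (γ s) (γ t)`.
By `mul_self`, `γ (2 t) = 2 • γ t`, so `γ (2^{-n}) = 2^{-n} • γ 1` (induction on n).  For a natural number k
`γ (k t) = k • γ t` (induction: `γ ((k+1) t) = mul (γ (k t)) (γ t) = mul (k • γ t) (1 • γ t) = (k+1) • γ t` by `G.exp`), so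
`γ (k 2^{-n}) = (k 2^{-n}) • γ 1`; `γ (-t) = - γ t` (`mul (γ t) (γ (-t)) = γ 0 = 0`, `γ 0 = 0` as `mul (γ 0) (γ 0) = γ 0`,
`mul_self`: `2 • γ 0 = γ 0`).  Dyadic numbers are dense (or: `t = lim ⌊t 2^n⌋ / 2^n`) and both sides are continuous.
(Alternatively: `γ` and `t ↦ t • γ 1` agree on the dyadic rationals; `DenseRange`/`Dense` of the set `{k / 2^n}`.)
`conj_smul`: apply it to `γ t = mul (mul x (t • v)) (-x)`: `mul (γ s) (γ t) = x (s v) x⁻¹ x (t v) x⁻¹ = x ((s+t) v) x⁻¹`.
`mul_smul_e`: multiply `conj_smul` by `x` on the right (`G.mul_neg_mul'`).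
-/

set_option autoImplicit false

namespace Pool.Agent.CG

open MeasureTheory Set Filter Topology
open scoped ContDiff ENNReal

namespace Carnot

variable {N m : ℕ} (G : Carnot N m)

/-- `x e_k x⁻¹`. -/
noncomputable def Zc (k : Fin m) (x : Pt N) : Pt N := G.mul (G.mul x (G.e k)) (-x)

theorem line_of_hom {γ : ℝ → Pt N} (hc : Continuous γ)
    (h : ∀ s t, γ (s + t) = G.mul (γ s) (γ t)) (t : ℝ) : γ t = t • γ 1 := by
  have h0 : γ 0 = 0 := by
    have h1 := h 0 0
    rw [add_zero, G.mul_self] at h1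
    have h2 : (2 : ℝ) • γ 0 - γ 0 = 0 := by
      rw [← h1, sub_self]
    have h3 : (2 : ℝ) • γ 0 - γ 0 = γ 0 := by
      rw [two_smul]
      abel
    rw [← h3, h2]
  have hneg : ∀ t, γ (-t) = -(γ t) := by
    intro t
    apply G.mul_left_cancel (x := γ t)
    rw [← h, add_neg_cancel, h0, G.mul_neg]
  have hn : ∀ (k : ℕ) (t : ℝ), γ (k * t) = (k : ℝ) • γ t := by
    intro k t
    induction k with
    | zero => simp [h0]
    | succ k ih =>
      have h1 : ((k + 1 : ℕ) : ℝ) * t = k * t + t := by push_cast; ring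
      have h2 := G.exp (γ t) k 1
      rw [one_smul] at h2
      rw [h1, h, ih, h2]
      push_cast
      rfl
  have hz : ∀ k : ℤ, γ (k : ℝ) = (k : ℝ) • γ 1 := by
    intro k
    obtain ⟨n, rfl | rfl⟩ := k.eq_nat_or_neg
    · have h1 := hn n 1
      rw [mul_one] at h1
      simpa using h1
    · have h1 := hn n 1
      rw [mul_one] at h1
      rw [Int.cast_neg, hneg, Int.cast_natCast, h1, neg_smul]
  have hq : ∀ q : ℚ, γ (q : ℝ) = (q : ℝ) • γ 1 := by
    intro q
    have hd : ((q.den : ℕ) : ℝ) ≠ 0 := by exact_mod_cast q.den_nz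
    have h1 := hn q.den (q : ℝ)
    have h2 : ((q.den : ℕ) : ℝ) * (q : ℝ) = ((q.num : ℤ) : ℝ) := by
      exact_mod_cast Rat.den_mul_eq_num q
    rw [h2, hz] at h1
    have h3 : (q : ℝ) = ((q.den : ℕ) : ℝ)⁻¹ * ((q.num : ℤ) : ℝ) := by
      rw [← h2, inv_mul_cancel_left₀ hd]
    have h4 : γ (q : ℝ) = ((q.den : ℕ) : ℝ)⁻¹ • (((q.num : ℤ) : ℝ) • γ 1) := by
      rw [h1, smul_smul, inv_mul_cancel₀ hd, one_smul]
    rw [h4, smul_smul, ← h3]
  have key : γ = fun t => t • γ 1 := by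
    refine DenseRange.equalizer Rat.denseRange_cast hc (continuous_id.smul continuous_const) ?_
    funext q
    exact hq q
  exact congrFun key t

theorem conj_smul (x v : Pt N) (t : ℝ) :
    G.mul (G.mul x (t • v)) (-x) = t • G.mul (G.mul x v) (-x) := by
  have hc : Continuous fun t : ℝ => G.mul (G.mul x (t • v)) (-x) :=
    (G.continuous_right (-x)).comp ((G.continuous_left x).comp (continuous_id.smul continuous_const))
  have h := G.line_of_hom hc (fun s t => by
    rw [← G.exp, ← G.assoc x (s • v) (t • v), G.assoc (G.mul x (s • v)) (-x) _,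
      ← G.assoc (-x) _ (-x), G.neg_mul_cancel, ← G.assoc]) t
  simp only [one_smul] at h
  exact h

theorem mul_smul_e (k : Fin m) (x : Pt N) (t : ℝ) :
    G.mul x (t • G.e k) = G.mul (t • G.Zc k x) x := by
  rw [Zc, ← G.conj_smul, G.mul_neg_mul']

theorem mul_two_smul (h x : Pt N) : G.mul ((2 : ℝ) • h) x = G.mul h (G.mul h x) := by
  rw [← G.mul_self, G.assoc]

end Carnot

end Pool.Agent.CG
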