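import Pool.Agent.CG.D.Geo1

/-!
# CG-D-Geo2: bounds on bounded sets (Euclidean sup norm of `Pt N = Fin N → ℝ`)

PLAN.  `mul_lip`: the map `q ↦ mul q.1 q.2` is `C^1`, its derivative is bounded on the compact convex set
`closedBall 0 R` of `Pt N × Pt N` (`IsCompact.exists_bound_of_continuousOn` for `fderiv`), mean value inequality
`Convex.norm_image_sub_le_of_norm_fderiv_le`; `‖(x,y) - (x',y')‖ = max .. ≤ ‖x-x'‖ + ‖y-y'‖`.
`norm_le_di`: `smooth_lip` (Geo) for the coordinate functions `φ = fun y => y i` on the compact set `closedBall 0 R`, maximum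
(or sum) of the finitely many constants, `pi_norm_le_iff`.
`ball_bdd`: `B x r ⊆ {di x y ≤ r}`, compact (`isCompact_cB`), so bounded.
`ell_le_norm`: `di_left_mul_le` with `K = {0}`: `di 0 (mul h 0) = ell h` (`di 0 h = ell (mul (-0) h) = ell h`).
`left_small`: `ell (mul h x) ≤ ell h + ell x`, `ell h ≤ C ‖h‖^(1/st) ≤ r' - r` for `‖h‖` small; `di 0 y = ell y`.
`quot_le`: `mul y (-x) = mul y (-x) - mul x (-x)` and `mul_lip`.
`Zc_bdd`: continuous function on a compact set.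
`right_small`: `di x (mul x (t • e_k)) = ell (t • e_k) ≤ |t|` (`di x y = ell (mul (-x) y)`, `ell_smul_e_le`), triangle inequality.
-/

set_option autoImplicit false

namespace Pool.Agent.CG

open MeasureTheory Set Filter Topology
open scoped ContDiff ENNReal

namespace Carnot

variable {N m : ℕ} (G : Carnot N m)

theorem mul_lip (R : ℝ) : ∃ C : ℝ, 0 < C ∧ ∀ x x' y y' : Pt N, ‖x‖ ≤ R → ‖x'‖ ≤ R → ‖y‖ ≤ R →
    ‖y'‖ ≤ R → ‖G.mul x y - G.mul x' y'‖ ≤ C * (‖x - x'‖ + ‖y - y'‖) := by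
  have hF : ContDiff ℝ 1 (fun q : Pt N × Pt N => G.mul q.1 q.2) :=
    G.contDiff_mul (by exact_mod_cast le_top)
  obtain ⟨C, hC⟩ := (isCompact_closedBall (0 : Pt N × Pt N) R).exists_bound_of_continuousOn
    (hF.continuous_fderiv one_ne_zero).continuousOn
  refine ⟨max C 1, lt_of_lt_of_le one_pos (le_max_right _ _), fun x x' y y' hx hx' hy hy' => ?_⟩
  have h1 : ((x, y) : Pt N × Pt N) ∈ Metric.closedBall (0 : Pt N × Pt N) R := by
    rw [mem_closedBall_zero_iff, Prod.norm_mk]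
    exact max_le hx hy
  have h2 : ((x', y') : Pt N × Pt N) ∈ Metric.closedBall (0 : Pt N × Pt N) R := by
    rw [mem_closedBall_zero_iff, Prod.norm_mk]
    exact max_le hx' hy'
  have h3 := (convex_closedBall (0 : Pt N × Pt N) R).norm_image_sub_le_of_norm_fderiv_le (𝕜 := ℝ)
    (f := fun q : Pt N × Pt N => G.mul q.1 q.2) (C := max C 1)
    (fun x _ => hF.differentiable one_ne_zero x) (fun x hx => (hC x hx).trans (le_max_left _ _)) h2 h1
  refine h3.trans ?_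
  apply mul_le_mul_of_nonneg_left _ (le_trans zero_le_one (le_max_right _ _))
  rw [Prod.mk_sub_mk, Prod.norm_mk]
  exact max_le (by linarith [norm_nonneg (y - y')]) (by linarith [norm_nonneg (x - x')])

theorem norm_le_di (R : ℝ) : ∃ C : ℝ, 0 < C ∧ ∀ x y : Pt N, ‖x‖ ≤ R → ‖y‖ ≤ R →
    ‖x - y‖ ≤ C * G.di x y := by
  have h1 : ∀ i : Fin N, ∃ C : ℝ, 0 < C ∧ ∀ x ∈ Metric.closedBall (0 : Pt N) R,
      ∀ y ∈ Metric.closedBall (0 : Pt N) R, |x i - y i| ≤ C * G.di x y := fun i =>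
    G.smooth_lip (φ := fun y : Pt N => y i) (contDiff_apply ℝ ℝ i) (isCompact_closedBall 0 R)
  choose C hC h using h1
  refine ⟨∑ i, C i + 1, by
    have := Finset.sum_nonneg fun i (_ : i ∈ (Finset.univ : Finset (Fin N))) => (hC i).le
    linarith, fun x y hx hy => ?_⟩
  have hd := G.di_nonneg x y
  have hsum : ∀ i, C i ≤ ∑ i, C i + 1 := by
    intro i
    have := Finset.single_le_sum (f := C) (fun j _ => (hC j).le) (Finset.mem_univ i)
    linarith
  have hpos : 0 ≤ ∑ i, C i + 1 := by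
    have := Finset.sum_nonneg fun i (_ : i ∈ (Finset.univ : Finset (Fin N))) => (hC i).le
    linarith
  rw [pi_norm_le_iff_of_nonneg (mul_nonneg hpos hd)]
  intro i
  rw [Real.norm_eq_abs, Pi.sub_apply]
  refine (h i x (mem_closedBall_zero_iff.2 hx) y (mem_closedBall_zero_iff.2 hy)).trans ?_
  exact mul_le_mul_of_nonneg_right (hsum i) hd

theorem ball_bdd (x : Pt N) (r : ℝ) : ∃ R : ℝ, 0 < R ∧ ∀ y ∈ G.B x r, ‖y‖ ≤ R := by
  obtain ⟨R, hR⟩ := (G.isCompact_cB x r).isBounded.subset_closedBall 0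
  refine ⟨max R 1, lt_of_lt_of_le one_pos (le_max_right _ _), fun y hy => ?_⟩
  have h1 : y ∈ {y | G.di x y ≤ r} := (G.mem_B.1 hy).le
  exact (mem_closedBall_zero_iff.1 (hR h1)).trans (le_max_left _ _)

theorem di_zero_left (y : Pt N) : G.di 0 y = G.ell y := by
  rw [di, neg_zero, G.zero_mul]

theorem ell_le_norm : ∃ C : ℝ, 0 < C ∧ ∀ h : Pt N, ‖h‖ ≤ 1 →
    G.ell h ≤ C * ‖h‖ ^ ((1 : ℝ) / G.st) := by
  obtain ⟨C, hC, h⟩ := G.di_left_mul_le (K := {0}) isCompact_singleton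
  refine ⟨C, hC, fun a ha => ?_⟩
  have h1 := h 0 rfl a ha
  rwa [G.mul_zero, G.di_zero_left] at h1

theorem left_small {r r' : ℝ} (h : r < r') : ∃ δ : ℝ, 0 < δ ∧ δ ≤ 1 ∧ ∀ h : Pt N, ‖h‖ ≤ δ →
    ∀ x ∈ G.B 0 r, G.mul h x ∈ G.B 0 r' := by
  obtain ⟨C, hC, hl⟩ := G.ell_le_norm
  have hs : (0 : ℝ) < 1 / G.st := by
    have := G.one_le_st
    positivity
  have hlim : Tendsto (fun t : ℝ => C * t ^ ((1 : ℝ) / G.st)) (𝓝 0) (𝓝 0) := by
    have h1 : Continuous fun t : ℝ => C * t ^ ((1 : ℝ) / G.st) :=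
      continuous_const.mul (continuous_id.rpow_const fun _ => Or.inr hs.le)
    have h2 := h1.tendsto 0
    simp only [Real.zero_rpow hs.ne', MulZeroClass.mul_zero] at h2
    exact h2
  obtain ⟨δ, hδ, hδ'⟩ := Metric.eventually_nhds_iff.1
    (hlim.eventually (gt_mem_nhds (show (0 : ℝ) < r' - r by linarith)))
  refine ⟨min (δ / 2) 1, by positivity, min_le_right _ _, fun a ha x hx => ?_⟩
  have ha1 : ‖a‖ ≤ 1 := ha.trans (min_le_right _ _)
  have ha2 : ‖a‖ < δ := lt_of_le_of_lt (ha.trans (min_le_left _ _)) (by linarith)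
  have h1 := hδ' (y := ‖a‖) (by rwa [Real.dist_eq, sub_zero, abs_of_nonneg (norm_nonneg a)])
  have h2 := hl a ha1
  rw [G.mem_B, G.di_zero_left] at hx ⊢
  have h3 := G.ell_mul_le a x
  linarith

theorem quot_le (R : ℝ) : ∃ C : ℝ, 0 < C ∧ ∀ x y : Pt N, ‖x‖ ≤ R → ‖y‖ ≤ R →
    ‖G.mul y (-x)‖ ≤ C * ‖y - x‖ := by
  obtain ⟨C, hC, h⟩ := G.mul_lip R
  refine ⟨C, hC, fun x y hx hy => ?_⟩
  have h1 := h y x (-x) (-x) hy hx (by rwa [norm_neg]) (by rwa [norm_neg])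
  rw [G.mul_neg, sub_zero, sub_self, norm_zero, add_zero] at h1
  exact h1

theorem Zc_bdd (R : ℝ) : ∃ C : ℝ, 0 < C ∧ ∀ (k : Fin m) (x : Pt N), ‖x‖ ≤ R → ‖G.Zc k x‖ ≤ C := by
  have hc : ∀ k : Fin m, Continuous (G.Zc k) := by
    intro k
    have h1 : Continuous fun x : Pt N => G.mul x (G.e k) := G.continuous_right _
    exact G.continuous_mul.comp (h1.prodMk continuous_neg)
  have h1 : ∀ k : Fin m, ∃ C : ℝ, ∀ x ∈ Metric.closedBall (0 : Pt N) R, ‖G.Zc k x‖ ≤ C := fun k =>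
    (isCompact_closedBall 0 R).exists_bound_of_continuousOn (hc k).continuousOn
  choose C hC using h1
  refine ⟨∑ k, |C k| + 1, by
    have := Finset.sum_nonneg fun k (_ : k ∈ (Finset.univ : Finset (Fin m))) => abs_nonneg (C k)
    linarith, fun k x hx => ?_⟩
  have h2 := hC k x (mem_closedBall_zero_iff.2 hx)
  have h3 := Finset.single_le_sum (f := fun k => |C k|) (fun _ _ => abs_nonneg _) (Finset.mem_univ k)
  have h4 := le_abs_self (C k)
  linarith

theorem di_mul_right (x g : Pt N) : G.di x (G.mul x g) = G.ell g := by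
  rw [di, G.neg_mul_cancel]

theorem right_small {x0 x : Pt N} {r r' t : ℝ} (hx : x ∈ G.B x0 r) (ht : |t| ≤ r' - r) (k : Fin m) :
    G.mul x (t • G.e k) ∈ G.B x0 r' := by
  rw [G.mem_B] at hx ⊢
  have h1 := G.di_triangle x0 x (G.mul x (t • G.e k))
  rw [G.di_mul_right] at h1
  have h2 := G.ell_smul_e_le k t
  linarith

/-- The distance `di x (h x)` for `x` in a ball and `h` small. -/
theorem di_left_small (x0 : Pt N) (r : ℝ) : ∃ C : ℝ, 0 < C ∧ ∀ x ∈ G.B x0 r, ∀ h : Pt N, ‖h‖ ≤ 1 →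
    G.di x (G.mul h x) ≤ C * ‖h‖ ^ ((1 : ℝ) / G.st) := by
  obtain ⟨C, hC, h⟩ := G.di_left_mul_le (G.isCompact_cB x0 r)
  exact ⟨C, hC, fun x hx a ha => h x (G.mem_B.1 hx).le a ha⟩

end Carnot

end Pool.Agent.CG
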