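import Pool.Agent.CG.D.Geo2
import Pool.Agent.CG.Sob

/-!
# CG-D-GradEq: uniform limits of right difference quotients are the weak horizontal gradient

PLAN.  `cont`: near `x0 ∈ Ω'` take `ρ` with `B x0 (2ρ) ⊆ Ω'` (`exists_B_subset`); for `2^{-j} ≤ ρ` and `x ∈ B x0 ρ` the point
`mul x (2^{-j} e_k)` is in `B x0 (2ρ)` (`right_small`), so `x ↦ 2^j (u (x 2^{-j} e_k) - u x)` is continuous on `B x0 ρ`; uniform limit
(`TendstoUniformlyOn.continuousOn`); components (`continuousOn_pi` / `EuclideanSpace`, `PiLp.continuous_toLp` ..).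
`a.e.`: it is enough (Mathlib: `IsOpen.ae_eq_zero_of_integral_contDiff_smul_eq_zero`, for each component `k` of `F - V`, locally integrable on
`Ω'`) that `∫ φ (F k - V k) = 0` for `φ` a test function on `Ω'`.  With `t = 2^{-j}`, `j` large (so that
`tsupport φ · (t e_k)` and `tsupport φ · (-t e_k)` are in a fixed compact subset `K1` of `Ω'`: `tsupport φ` is compact, distance to the
complement, `right_small`):
`∫ 2^j (u (x te_k) - u x) φ x dx = ∫ u x * (2^j (φ (x (-te_k)) - φ x)) dx` (`G.mp_right (-t e_k)` substitution `x ↦ mul x (-(t e_k))` in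
the first term; integrable: continuous on `Ω`, compact support).  Left side → `∫ V k φ` (uniform convergence on `tsupport φ`), right side →
`- ∫ u X_k φ` (dominated: `|2^j (φ (x (-te_k)) - φ x)| ≤ sup |X_k φ|`, mean value, `hasDerivAt_X`; pointwise limit `- X_k φ x`;
everything vanishes off `K1`), and `- ∫ u X_k φ = ∫ F k φ` (`HW.weak`).
-/

set_option autoImplicit false

namespace Pool.Agent.CG

open MeasureTheory Set Filter Topology
open scoped ContDiff ENNReal

variable {N m : ℕ} {G : Carnot N m}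

/-- the difference quotients -/
private noncomputable def dq (G : Carnot N m) (u : Pt N → ℝ) (k : Fin m) (j : ℕ) (x : Pt N) : ℝ :=
  2 ^ j * (u (G.mul x (((2 : ℝ) ^ j)⁻¹ • G.e k)) - u x)

private theorem two_pow_inv_tendsto : Tendsto (fun j : ℕ => ((2 : ℝ) ^ j)⁻¹) atTop (𝓝 0) :=
  tendsto_inv_atTop_zero.comp (tendsto_pow_atTop_atTop_of_one_lt one_lt_two)

theorem quot_cont {Ω Ω' : Set (Pt N)} (hΩ' : IsOpen Ω') (hs : Ω' ⊆ Ω)
    {u : Pt N → ℝ} (hc : ContinuousOn u Ω) {V : Pt N → Hv m}
    {c : ℕ → ℝ} (hc0 : Tendsto c atTop (𝓝 0)) {J : ℕ}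
    (h : ∀ x ∈ Ω', ∀ (k : Fin m) (j : ℕ), J ≤ j →
      |2 ^ j * (u (G.mul x (((2 : ℝ) ^ j)⁻¹ • G.e k)) - u x) - V x k| ≤ c j) :
    ContinuousOn V Ω' := by
  intro x0 hx0
  refine ContinuousAt.continuousWithinAt ?_
  obtain ⟨r, hr, hrΩ⟩ := G.exists_B_subset hΩ' hx0
  have hr2 : 0 < r / 2 := by positivity
  have hsub : G.B x0 (r / 2) ⊆ Ω' := fun y hy => hrΩ (by
    have : G.di x0 y < r / 2 := hy
    show G.di x0 y ≤ r
    linarith)
  have hk : ∀ k : Fin m, ContinuousAt (fun x => V x k) x0 := by
    intro k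
    have hU : TendstoUniformlyOn (fun j => dq G u k j) (fun x => V x k) atTop (G.B x0 (r / 2)) := by
      rw [Metric.tendstoUniformlyOn_iff]
      intro ε hε
      have h1 : ∀ᶠ j in atTop, c j < ε := hc0.eventually (gt_mem_nhds hε)
      filter_upwards [h1, eventually_ge_atTop J] with j hj hJ x hx
      rw [dist_comm, Real.dist_eq]
      exact (h x (hsub hx) k j hJ).trans_lt hj
    have hC : ∀ᶠ j : ℕ in atTop, ContinuousOn (dq G u k j) (G.B x0 (r / 2)) := by
      have h1 : ∀ᶠ j : ℕ in atTop, ((2 : ℝ) ^ j)⁻¹ < r / 2 :=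
        two_pow_inv_tendsto.eventually (gt_mem_nhds hr2)
      filter_upwards [h1] with j hj
      have h2 : ContinuousOn u Ω' := hc.mono hs
      refine ContinuousOn.mul continuousOn_const (ContinuousOn.sub ?_ (h2.mono hsub))
      refine h2.comp (G.continuous_right _).continuousOn ?_
      intro x hx
      have h3 : G.mul x (((2 : ℝ) ^ j)⁻¹ • G.e k) ∈ G.B x0 r := by
        refine G.right_small hx ?_ k
        rw [abs_of_nonneg (by positivity)]
        linarith
      exact hrΩ (show G.di x0 _ ≤ r from le_of_lt h3)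
    have h4 := hU.continuousOn hC.frequently
    exact h4.continuousAt ((G.isOpen_B x0 (r / 2)).mem_nhds (by
      show G.di x0 x0 < r / 2
      rw [G.di_self]; exact hr2))
  have h5 : ContinuousAt (fun x => WithLp.toLp 2 (fun k => V x k) : Pt N → Hv m) x0 :=
    (PiLp.continuous_toLp 2 _).continuousAt.comp (continuousAt_pi.2 hk)
  exact h5

/-- a compact neighbourhood of the support inside of `Ω'` -/
private theorem exists_K1 {Ω' K : Set (Pt N)} (hΩ' : IsOpen Ω') (hK : IsCompact K) (hKΩ : K ⊆ Ω')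
    (k : Fin m) : ∃ t0 : ℝ, 0 < t0 ∧ ∃ K1 : Set (Pt N), IsCompact K1 ∧ K1 ⊆ Ω' ∧
      ∀ x ∈ K, ∀ t : ℝ, |t| ≤ t0 → G.mul x (t • G.e k) ∈ K1 := by
  have hcont : Continuous fun z : ℝ × Pt N => G.mul z.2 (z.1 • G.e k) :=
    G.continuous_mul.comp (continuous_snd.prodMk (continuous_fst.smul continuous_const))
  have h1 : ∀ᶠ t in 𝓝 (0 : ℝ), ∀ y ∈ K, G.mul y (t • G.e k) ∈ Ω' := by
    refine hK.eventually_forall_of_forall_eventually (P := fun t y => G.mul y (t • G.e k) ∈ Ω') ?_
    intro y hy
    refine hcont.continuousAt.eventually_mem (hΩ'.mem_nhds ?_)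
    simp only [zero_smul, G.mul_zero]
    exact hKΩ hy
  obtain ⟨ε, hε, h2⟩ := Metric.eventually_nhds_iff.1 h1
  refine ⟨ε / 2, by positivity, (fun z : ℝ × Pt N => G.mul z.2 (z.1 • G.e k)) ''
    (Icc (-(ε / 2)) (ε / 2) ×ˢ K), (isCompact_Icc.prod hK).image hcont, ?_, ?_⟩
  · rintro _ ⟨⟨t, y⟩, ⟨ht, hy⟩, rfl⟩
    refine h2 ?_ y hy
    rw [Real.dist_eq, sub_zero]
    have := abs_le.2 ht
    linarith
  · intro x hx t ht
    exact ⟨(t, x), ⟨abs_le.1 ht, hx⟩, rfl⟩

private theorem integrable_of_support {f : Pt N → ℝ} {K : Set (Pt N)} (hK : IsCompact K)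
    (hf : ContinuousOn f K) (h0 : ∀ x, x ∉ K → f x = 0) : Integrable f := by
  have h1 : IntegrableOn f K := hf.integrableOn_compact hK
  have h2 : K.indicator f = f := by
    funext x
    by_cases hx : x ∈ K
    · rw [indicator_of_mem hx]
    · rw [indicator_of_notMem hx, h0 x hx]
  rw [← h2]
  exact (integrable_indicator_iff hK.measurableSet).2 h1

theorem grad_eq {Ω Ω' : Set (Pt N)} (hΩ' : IsOpen Ω') (hs : Ω' ⊆ Ω)
    {u : Pt N → ℝ} {F : Pt N → Hv m} (hu : HW G 2 Ω u F) (hc : ContinuousOn u Ω) {V : Pt N → Hv m}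
    {c : ℕ → ℝ} (hc0 : Tendsto c atTop (𝓝 0)) {J : ℕ}
    (h : ∀ x ∈ Ω', ∀ (k : Fin m) (j : ℕ), J ≤ j →
      |2 ^ j * (u (G.mul x (((2 : ℝ) ^ j)⁻¹ • G.e k)) - u x) - V x k| ≤ c j) :
    ∀ᵐ x, x ∈ Ω' → F x = V x := by
  have hVc : ContinuousOn V Ω' := quot_cont hΩ' hs hc hc0 h
  have huc : ContinuousOn u Ω' := hc.mono hs
  have hk : ∀ k : Fin m, ∀ᵐ x, x ∈ Ω' → F x k - V x k = 0 := by
    intro k
    have hVk : ContinuousOn (fun x => V x k) Ω' :=
      ((PiLp.continuous_ofLp 2 _).comp_continuousOn hVc |> continuousOn_pi.1) k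
    have hFloc : ∀ K : Set (Pt N), K ⊆ Ω' → IsCompact K → IntegrableOn (fun x => F x k) K := by
      intro K hKs hK
      have h1 : MemLp F 2 (volume.restrict K) := hu.lqg K hK (hKs.trans hs)
      have : IsFiniteMeasure (volume.restrict K) := ⟨by
        rw [Measure.restrict_apply_univ]; exact hK.measure_lt_top⟩
      have h2 : Integrable F (volume.restrict K) := h1.integrable (by norm_num)
      exact (EuclideanSpace.proj (𝕜 := ℝ) k : Hv m →L[ℝ] ℝ).integrable_comp h2
    have hloc : LocallyIntegrableOn (fun x => F x k - V x k) Ω' := by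
      rw [locallyIntegrableOn_iff hΩ'.isLocallyClosed]
      intro K hKs hK
      exact (hFloc K hKs hK).sub ((hVk.mono hKs).integrableOn_compact hK)
    refine hΩ'.ae_eq_zero_of_integral_contDiff_smul_eq_zero hloc ?_
    intro φ hφ hφc hφs
    have hT : Test Ω φ := ⟨hφ, hφc, hφs.trans hs⟩
    set K := tsupport φ with hKdef
    have hK : IsCompact K := hφc
    have hφ0 : ∀ x, x ∉ K → φ x = 0 := fun x hx => image_eq_zero_of_notMem_tsupport hx
    obtain ⟨t0, ht0, K1, hK1, hK1s, hK1m⟩ := exists_K1 (G := G) hΩ' hK hφs k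
    have hKK1 : K ⊆ K1 := by
      intro x hx
      have := hK1m x hx 0 (by simp [ht0.le])
      rwa [zero_smul, G.mul_zero] at this
    -- weak derivative
    have hweak := hu.weak φ hT k
    -- integrability
    have iV : Integrable (fun x => V x k * φ x) := by
      refine integrable_of_support hK ((hVk.mono hφs).mul hφ.continuous.continuousOn) ?_
      intro x hx
      rw [hφ0 x hx, mul_zero]
    have iF : Integrable (fun x => F x k * φ x) := by
      have h1 : IntegrableOn (fun x => F x k * φ x) K :=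
        (hFloc K hφs hK).mul_continuousOn hφ.continuous.continuousOn hK
      have h2 : K.indicator (fun x => F x k * φ x) = fun x => F x k * φ x := by
        funext x
        by_cases hx : x ∈ K
        · rw [indicator_of_mem hx]
        · rw [indicator_of_notMem hx, hφ0 x hx, mul_zero]
      rw [← h2]
      exact (integrable_indicator_iff hK.measurableSet).2 h1
    have iu : Integrable (fun x => u x * φ x) := by
      refine integrable_of_support hK ((huc.mono hφs).mul hφ.continuous.continuousOn) ?_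
      intro x hx
      rw [hφ0 x hx, mul_zero]
    -- the translated test function
    have hshift : ∀ t : ℝ, |t| ≤ t0 → ∀ x, x ∉ K1 → φ (G.mul x (-(t • G.e k))) = 0 := by
      intro t ht x hx
      refine hφ0 _ fun hx' => hx ?_
      have := hK1m _ hx' t ht
      rwa [G.mul_neg_mul'] at this
    have iut : ∀ t : ℝ, |t| ≤ t0 → Integrable (fun x => u x * φ (G.mul x (-(t • G.e k)))) := by
      intro t ht
      refine integrable_of_support hK1 ((huc.mono hK1s).mul
        (hφ.continuous.comp (G.continuous_right _)).continuousOn) ?_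
      intro x hx
      rw [hshift t ht x hx, mul_zero]
    have hsubst : ∀ t : ℝ, |t| ≤ t0 → Integrable (fun x => u (G.mul x (t • G.e k)) * φ x) ∧
        ∫ x, u (G.mul x (t • G.e k)) * φ x = ∫ x, u x * φ (G.mul x (-(t • G.e k))) := by
      intro t ht
      have hemb : MeasurableEmbedding (fun x => G.mul x (t • G.e k)) :=
        (G.homeoR (t • G.e k)).measurableEmbedding
      have hmp := G.mp_right (t • G.e k)
      have e1 : (fun x => u (G.mul x (t • G.e k)) * φ x) =
          (fun x => u x * φ (G.mul x (-(t • G.e k)))) ∘ fun x => G.mul x (t • G.e k) := by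
        funext x
        simp only [Function.comp, G.mul_mul_neg]
      constructor
      · rw [e1]
        exact (hmp.integrable_comp_emb hemb).2 (iut t ht)
      · have := hmp.integral_comp hemb (fun x => u x * φ (G.mul x (-(t • G.e k))))
        rw [← this]
        refine integral_congr_ae (Eventually.of_forall fun x => ?_)
        simp only [G.mul_mul_neg]
    -- the two limits
    have hsmall : ∀ᶠ j : ℕ in atTop, ((2 : ℝ) ^ j)⁻¹ ≤ t0 :=
      (two_pow_inv_tendsto.eventually (gt_mem_nhds ht0)).mono fun j hj => le_of_lt hj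
    have hid : ∀ᶠ j : ℕ in atTop, Integrable (fun x => dq G u k j x * φ x) ∧
        ∫ x, dq G u k j x * φ x =
          ∫ x, u x * (2 ^ j * (φ (G.mul x (-(((2 : ℝ) ^ j)⁻¹ • G.e k))) - φ x)) := by
      filter_upwards [hsmall] with j hj
      have ht : |((2 : ℝ) ^ j)⁻¹| ≤ t0 := by rwa [abs_of_nonneg (by positivity)]
      obtain ⟨i1, e1⟩ := hsubst _ ht
      have e2 : (fun x => dq G u k j x * φ x) = fun x =>
          2 ^ j * (u (G.mul x (((2 : ℝ) ^ j)⁻¹ • G.e k)) * φ x - u x * φ x) := by
        funext x; simp only [dq]; ring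
      have e3 : (fun x => u x * (2 ^ j * (φ (G.mul x (-(((2 : ℝ) ^ j)⁻¹ • G.e k))) - φ x))) =
          fun x => 2 ^ j * (u x * φ (G.mul x (-(((2 : ℝ) ^ j)⁻¹ • G.e k))) - u x * φ x) := by
        funext x; ring
      constructor
      · rw [e2]; exact (i1.sub iu).const_mul _
      · rw [e2, e3, integral_const_mul, integral_const_mul, integral_sub i1 iu,
          integral_sub (iut _ ht) iu, e1]
    have lim1 : Tendsto (fun j : ℕ => ∫ x, dq G u k j x * φ x) atTop (𝓝 (∫ x, V x k * φ x)) := by
      have iabs : Integrable (fun x => |φ x|) :=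
        (hφ.continuous.integrable_of_hasCompactSupport hφc).abs
      rw [tendsto_iff_norm_sub_tendsto_zero]
      have hb : ∀ᶠ j : ℕ in atTop, ‖(∫ x, dq G u k j x * φ x) - ∫ x, V x k * φ x‖ ≤
          c j * ∫ x, |φ x| := by
        filter_upwards [hid, eventually_ge_atTop J] with j hj hJ
        rw [← integral_sub hj.1 iV, ← integral_const_mul]
        refine (norm_integral_le_integral_norm _).trans (integral_mono (hj.1.sub iV).norm
          (iabs.const_mul _) fun x => ?_)
        show ‖dq G u k j x * φ x - V x k * φ x‖ ≤ c j * |φ x|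
        rw [← sub_mul, norm_mul, Real.norm_eq_abs, Real.norm_eq_abs]
        by_cases hx : x ∈ K
        · exact mul_le_mul_of_nonneg_right (h x (hφs hx) k j hJ) (abs_nonneg _)
        · rw [hφ0 x hx]; simp
      refine squeeze_zero' (Eventually.of_forall fun j => norm_nonneg _) hb ?_
      have := hc0.mul_const (∫ x, |φ x|)
      rwa [zero_mul] at this
    have hφX : ∀ x, HasDerivAt (fun t : ℝ => φ (G.mul x (t • G.e k))) (G.X k φ x) 0 := by
      intro x
      have := G.hasDerivAt_X (hφ.of_le (by norm_cast) : ContDiff ℝ 1 φ) k x 0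
      rwa [zero_smul, G.mul_zero] at this
    obtain ⟨D, hD⟩ : ∃ D : ℝ, ∀ x, ‖G.X k φ x‖ ≤ D := by
      have hTX := G.test_X hT k
      obtain ⟨D, hD⟩ := hTX.cpt.exists_bound_of_continuous hTX.smooth.continuous
      exact ⟨D, hD⟩
    have hbound : ∀ (x : Pt N) (t : ℝ), |φ (G.mul x (t • G.e k)) - φ x| ≤ D * |t| := by
      intro x t
      have h1 := (convex_univ (𝕜 := ℝ) (E := ℝ)).norm_image_sub_le_of_norm_hasDerivWithin_le
        (f := fun t : ℝ => φ (G.mul x (t • G.e k)))
        (f' := fun t : ℝ => G.X k φ (G.mul x (t • G.e k))) (C := D) (x := 0) (y := t)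
        (fun s _ => (G.hasDerivAt_X (hφ.of_le (by norm_cast) : ContDiff ℝ 1 φ)
          k x s).hasDerivWithinAt) (fun s _ => hD _) (mem_univ _) (mem_univ _)
      simpa [G.mul_zero] using h1
    have lim2 : Tendsto (fun j : ℕ => ∫ x, u x *
        (2 ^ j * (φ (G.mul x (-(((2 : ℝ) ^ j)⁻¹ • G.e k))) - φ x))) atTop
        (𝓝 (∫ x, u x * (-G.X k φ x))) := by
      refine tendsto_integral_filter_of_dominated_convergence
        (K1.indicator fun x => |u x| * D) ?_ ?_ ?_ ?_
      · filter_upwards [hsmall] with j hj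
        have ht : |((2 : ℝ) ^ j)⁻¹| ≤ t0 := by rwa [abs_of_nonneg (by positivity)]
        have e3 : (fun x => u x * (2 ^ j * (φ (G.mul x (-(((2 : ℝ) ^ j)⁻¹ • G.e k))) - φ x))) =
            fun x => 2 ^ j * (u x * φ (G.mul x (-(((2 : ℝ) ^ j)⁻¹ • G.e k))) - u x * φ x) := by
          funext x; ring
        rw [e3]
        exact (((iut _ ht).sub iu).const_mul _).aestronglyMeasurable
      · filter_upwards [hsmall] with j hj
        have ht : |((2 : ℝ) ^ j)⁻¹| ≤ t0 := by rwa [abs_of_nonneg (by positivity)]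
        refine Eventually.of_forall fun x => ?_
        by_cases hx : x ∈ K1
        · rw [indicator_of_mem hx, norm_mul, Real.norm_eq_abs]
          refine mul_le_mul_of_nonneg_left ?_ (abs_nonneg _)
          have h1 := hbound x (-((2 : ℝ) ^ j)⁻¹)
          rw [neg_smul, abs_neg, abs_of_nonneg (by positivity : (0:ℝ) ≤ ((2 : ℝ) ^ j)⁻¹)] at h1
          rw [Real.norm_eq_abs, abs_mul, abs_of_nonneg (by positivity : (0:ℝ) ≤ (2 : ℝ) ^ j)]
          calc (2 : ℝ) ^ j * |φ (G.mul x (-(((2 : ℝ) ^ j)⁻¹ • G.e k))) - φ x|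
              ≤ (2 : ℝ) ^ j * (D * ((2 : ℝ) ^ j)⁻¹) :=
                mul_le_mul_of_nonneg_left h1 (by positivity)
            _ = D := by field_simp
        · rw [indicator_of_notMem hx, hshift _ ht x hx, hφ0 x (fun hx' => hx (hKK1 hx'))]
          simp
      · refine (integrable_indicator_iff hK1.measurableSet).2 ?_
        exact (((huc.mono hK1s).abs).mul continuousOn_const).integrableOn_compact hK1
      · refine Eventually.of_forall fun x => ?_
        refine Tendsto.const_mul _ ?_
        have h1 := (hφX x).tendsto_slope_zero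
        have h2 : Tendsto (fun j : ℕ => -((2 : ℝ) ^ j)⁻¹) atTop (𝓝[≠] 0) := by
          refine tendsto_nhdsWithin_iff.2 ⟨?_, Eventually.of_forall fun j => ?_⟩
          · have := two_pow_inv_tendsto.neg
            rwa [neg_zero] at this
          · simp
        have h3 := (h1.comp h2).neg
        refine h3.congr fun j => ?_
        simp only [Function.comp, zero_add, zero_smul, G.mul_zero, smul_eq_mul, neg_smul,
          inv_neg, inv_inv]
        ring
    have lim3 : Tendsto (fun j : ℕ => ∫ x, dq G u k j x * φ x) atTop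
        (𝓝 (∫ x, u x * (-G.X k φ x))) :=
      lim2.congr' (hid.mono fun j hj => hj.2.symm)
    have heq := tendsto_nhds_unique lim1 lim3
    have e4 : ∫ x, u x * (-G.X k φ x) = ∫ x, F x k * φ x := by
      have : (fun x => u x * (-G.X k φ x)) = fun x => -(u x * G.X k φ x) := by funext x; ring
      rw [this, integral_neg, hweak, neg_neg]
    rw [e4] at heq
    have e5 : (fun x => φ x • (F x k - V x k)) = fun x => F x k * φ x - V x k * φ x := by
      funext x; simp only [smul_eq_mul]; ring
    rw [e5, integral_sub iF iV, heq, sub_self]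
  have hall := ae_all_iff.2 hk
  filter_upwards [hall] with x hx hxΩ
  ext k
  have := hx k hxΩ
  linarith

end Pool.Agent.CG
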