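import Pool.Agent.CG.D.Diff
import Pool.Agent.CG.D.Def
import Pool.Agent.CG.D.Geo2

/-!
# CG-D-Start: the Hölder representative, and the first exponent

PLAN.  `start`: `HolE` on the ball `B 0 1` for `w` (`self_dg` gives the two `DG` hypotheses), `R = 1`: `u := v'`; `Gd` with the constant
`√C * M`: `|u y - u z|^2 ≤ C * di^(2α) * M^2 = (√C * M * di^α)^2` (`Real.rpow_mul`/`rpow_natCast`, `abs_le_of_sq_le`..),
`Sol` on `B 0 (1/2)` by `Sol.mono` and `HW.congr` (`B 0 (1/2) ⊆ B 0 1`; `Sol` only involves `F` in the equation).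
`base`: `left_small` with `r < 1/2` for the inclusion; `|u (h x) - u x| ≤ M * di (h x) x ^ α ≤ M * (C ‖h‖^(1/st))^α`
(`di_left_small`, `Real.rpow_le_rpow`, `Real.rpow_mul`); `r < 1/2` so `x ∈ B 0 (1/2)`.  (`di_comm`.)
`P1.mono`, `P2.mono`: `‖h‖ ≤ δ ≤ 1` so `‖h‖^g ≤ ‖h‖^g'` for `g' ≤ g`, `0 < g'` (`Real.rpow_le_rpow_of_exponent_ge'` for `0 ≤ ‖h‖`);
`B 0 r' ⊆ B 0 r`.
-/

set_option autoImplicit false

namespace Pool.Agent.CG

open MeasureTheory Set Filter Topology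
open scoped ContDiff ENNReal

variable {N m : ℕ} {G : Carnot N m}

private theorem B_mono {r r' : ℝ} (h : r ≤ r') (x : Pt N) : G.B x r ⊆ G.B x r' :=
  fun _ hy => lt_of_lt_of_le (show G.di x _ < r from hy) h

theorem start {lam Lam α C : ℝ} (hlam : 0 < lam) (hLam : 0 ≤ Lam) (hα : 0 < α) (hC : 0 < C)
    (hE : HolE G (4 * Lam ^ 2 / lam ^ 2) α C) :
    ∃ C' : ℝ, 0 < C' ∧ ∀ (B : Hv m → Hv m) (M : ℝ) (w : Pt N → ℝ) (F : Pt N → Hv m),
      UU lam Lam B → 0 ≤ M → Sol G 2 (G.B 0 1) B w F →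
      IntegrableOn (fun y => w y ^ 2) (G.B 0 1) → ∫ y in G.B 0 1, w y ^ 2 ≤ M ^ 2 →
      ∃ u : Pt N → ℝ, (∀ᵐ y, y ∈ G.B 0 (1 / 2) → w y = u y) ∧ Gd G α B (C' * M) u F := by
  refine ⟨Real.sqrt C, Real.sqrt_pos.2 hC, ?_⟩
  intro B M w F hB hM hw hint hle
  obtain ⟨u, hu1, -, hu3⟩ := hE 0 1 one_pos w F
    (fun k0 => (self_dg hlam hLam hB (G.isOpen_B 0 1) hw k0).1)
    (fun k0 => (self_dg hlam hLam hB (G.isOpen_B 0 1) hw k0).2) hint
  have hsub : G.B 0 (1 / 2) ⊆ G.B 0 1 := B_mono (by norm_num) 0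
  refine ⟨u, hu1, ?_, ?_⟩
  · have h1 : HW G 2 (G.B 0 (1 / 2)) u F :=
      HW.congr (G.isOpen_B 0 (1 / 2)) (hw.toHW.mono hsub) hu1
        (Filter.Eventually.of_forall fun _ _ => rfl)
    exact { toHW := h1, eqn := fun φ hφ => hw.eqn φ (hφ.mono hsub) }
  · intro y hy z hz
    have h1 := hu3 y hy z hz
    have hd : 0 ≤ G.di y z := G.di_nonneg y z
    have hdp : 0 ≤ G.di y z ^ α := Real.rpow_nonneg hd _
    have h2 : |u y - u z| ^ 2 ≤ (Real.sqrt C * M * G.di y z ^ α) ^ 2 := by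
      refine h1.trans ?_
      rw [div_one, inv_one, one_pow, one_mul]
      have e1 : G.di y z ^ (2 * α) = (G.di y z ^ α) ^ 2 := by
        rw [← Real.rpow_natCast, ← Real.rpow_mul hd]
        congr 1
        push_cast
        ring
      rw [e1]
      have e2 : (Real.sqrt C * M * G.di y z ^ α) ^ 2 = C * (G.di y z ^ α) ^ 2 * M ^ 2 := by
        rw [mul_pow, mul_pow, Real.sq_sqrt hC.le]
        ring
      rw [e2]
      exact mul_le_mul_of_nonneg_left hle (by positivity)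
    exact (pow_le_pow_iff_left₀ (abs_nonneg _) (by positivity) two_ne_zero).1 h2

theorem base (G : Carnot N m) {lam Lam α r : ℝ} (hα : 0 < α) (hr : r < 1 / 2) :
    P1 G lam Lam α (α / G.st) r := by
  obtain ⟨δ, hδ, hδ1, hin⟩ := G.left_small hr
  obtain ⟨C, hC, hdi⟩ := G.di_left_small 0 r
  refine ⟨C ^ α, δ, Real.rpow_pos_of_pos hC _, hδ, hδ1, hin, ?_⟩
  intro B M u F _ hM hu h hh x hx
  have hx2 : x ∈ G.B 0 (1 / 2) := B_mono hr.le 0 hx
  have h1 := hu.hol (G.mul h x) (hin h hh x hx) x hx2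
  have h2 : G.di (G.mul h x) x ≤ C * ‖h‖ ^ ((1 : ℝ) / G.st) := by
    rw [G.di_comm]
    exact hdi x hx h (hh.trans hδ1)
  have h3 : G.di (G.mul h x) x ^ α ≤ (C * ‖h‖ ^ ((1 : ℝ) / G.st)) ^ α :=
    Real.rpow_le_rpow (G.di_nonneg _ _) h2 hα.le
  have h4 : (C * ‖h‖ ^ ((1 : ℝ) / G.st)) ^ α = C ^ α * ‖h‖ ^ (α / G.st) := by
    rw [Real.mul_rpow hC.le (Real.rpow_nonneg (norm_nonneg _) _), ← Real.rpow_mul (norm_nonneg _)]
    congr 2
    ring
  rw [h4] at h3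
  calc |u (G.mul h x) - u x| ≤ M * (C ^ α * ‖h‖ ^ (α / G.st)) :=
        h1.trans (mul_le_mul_of_nonneg_left h3 hM)
    _ = _ := by ring

theorem P1.mono {lam Lam α g g' r r' : ℝ} (h : P1 G lam Lam α g r) (hg0 : 0 < g') (hg : g' ≤ g)
    (hr : r' ≤ r) : P1 G lam Lam α g' r' := by
  obtain ⟨C, δ, hC, hδ, hδ1, hin, hb⟩ := h
  refine ⟨C, δ, hC, hδ, hδ1, fun h hh x hx => hin h hh x (B_mono hr 0 hx), ?_⟩
  intro B M u F hB hM hu h hh x hx
  refine (hb B M u F hB hM hu h hh x (B_mono hr 0 hx)).trans ?_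
  exact mul_le_mul_of_nonneg_left (Real.rpow_le_rpow_of_exponent_ge' (norm_nonneg _)
    (hh.trans hδ1) hg0.le hg) (mul_nonneg hC.le hM)

theorem P2.mono {lam Lam α g g' r r' : ℝ} (h : P2 G lam Lam α g r) (hg0 : 0 < g') (hg : g' ≤ g)
    (hr : r' ≤ r) : P2 G lam Lam α g' r' := by
  obtain ⟨C, δ, hC, hδ, hδ1, hin, hb⟩ := h
  refine ⟨C, δ, hC, hδ, hδ1, fun h hh x hx => hin h hh x (B_mono hr 0 hx), ?_⟩
  intro B M u F hB hM hu h hh x hx
  refine (hb B M u F hB hM hu h hh x (B_mono hr 0 hx)).trans ?_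
  exact mul_le_mul_of_nonneg_left (Real.rpow_le_rpow_of_exponent_ge' (norm_nonneg _)
    (hh.trans hδ1) hg0.le hg) (mul_nonneg hC.le hM)

theorem Gd.cont {α M : ℝ} {B : Hv m → Hv m} {u : Pt N → ℝ} {F : Pt N → Hv m} (hα : 0 < α)
    (h : Gd G α B M u F) : ContinuousOn u (G.B 0 (1 / 2)) := by
  intro x hx
  rw [ContinuousWithinAt, tendsto_iff_norm_sub_tendsto_zero]
  have hc : Continuous fun y => M * G.di y x ^ α := by
    have h1 : Continuous fun y => G.di y x :=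
      G.continuous_di.comp (continuous_id.prodMk continuous_const)
    exact continuous_const.mul (h1.rpow_const fun _ => Or.inr hα.le)
  have h0 : Tendsto (fun y => M * G.di y x ^ α) (𝓝[G.B 0 (1 / 2)] x) (𝓝 0) := by
    have h2 := (hc.tendsto x).mono_left (nhdsWithin_le_nhds (s := G.B 0 (1 / 2)))
    rw [G.di_self, Real.zero_rpow hα.ne', MulZeroClass.mul_zero] at h2
    exact h2
  refine squeeze_zero' (Filter.Eventually.of_forall fun _ => norm_nonneg _) ?_ h0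
  filter_upwards [self_mem_nhdsWithin] with y hy
  rw [Real.norm_eq_abs]
  exact h.hol y hy x hx

end Pool.Agent.CG
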