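import Pool.Agent.CG.D.GradEq
import Pool.Agent.CG.D.Start

/-!
# CG-D-Hol: Hölder continuity of the gradient

PLAN.  Let `C₃, J` be the constants of `P3`, `C₁, δ` those of `P1 1 r`.  `V x k := L` (choose; `V x = WithLp.toLp 2 (fun k => L x k)` for `x ∈ B 0 r`,
0 elsewhere).  a.e. equality: `grad_eq` with `Ω = B 0 (1/2)`, `Ω' = B 0 r` (`⊆ B 0 (1/2)`, by the inclusion of `P1` with `h = 0`,
`G.zero_mul`), `c j = C₃ M (2^{-j})^ε → 0`.  Sup bound: `‖V x‖ ≤ √m C₃ M` (or `≤ ∑ |V x k|`).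
Lipschitz: for `p, q ∈ B 0 r`, `‖p - q‖` small: `q = mul (mul q (-p)) p`, `‖mul q (-p)‖ ≤ C ‖q - p‖ ≤ δ` (`quot_le`), so
`|u q - u p| ≤ C₁ C M ‖q - p‖`.
Hölder: `x, y ∈ B 0 r'`, `d = ‖x - y‖`, `0 < d` small.  Choose `j ≥ J` with `2^{-j} ≤ √d < 2^{-j+1}` (for `√d ≤ 2^{-J-1}`, and `2^{-j} ≤ r - r'`):
`|V x k - V y k| ≤ 2 C₃ M (2^{-j})^ε + 2^j (|u (x 2^{-j}e_k) - u (y 2^{-j}e_k)| + |u x - u y|)`, the four points are in `B 0 r`
(`right_small`), `‖x g - y g‖ ≤ C ‖x - y‖` (`mul_lip`), so this is `≤ 2 C₃ M d^(ε/2) + 2^j C' M d ≤ C'' M d^(ε/2)` (`2^j ≤ 2/√d`, `√d ≤ d^(ε/2)` as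
`ε ≤ 1`, `d ≤ 1`).  For `d` not small use the sup bound.
-/

set_option autoImplicit false

namespace Pool.Agent.CG

open MeasureTheory Set Filter Topology
open scoped ContDiff ENNReal

variable {N m : ℕ} {G : Carnot N m}

private theorem hol_norm_le {v : Hv m} {c : ℝ} (hc : 0 ≤ c) (h : ∀ k, |v k| ≤ c) :
    ‖v‖ ≤ m * c := by
  rw [EuclideanSpace.norm_eq]
  have h1 : ∑ k, ‖v k‖ ^ 2 ≤ (m * c) ^ 2 := by
    calc ∑ k, ‖v k‖ ^ 2 ≤ ∑ _k : Fin m, c ^ 2 := Finset.sum_le_sum fun k _ => by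
          rw [Real.norm_eq_abs]
          exact pow_le_pow_left₀ (abs_nonneg _) (h k) 2
      _ = m * c ^ 2 := by simp
      _ ≤ (m * c) ^ 2 := by
          rw [mul_pow]
          apply mul_le_mul_of_nonneg_right _ (by positivity)
          have : (m : ℝ) ≤ (m : ℝ) ^ 2 := by exact_mod_cast Nat.le_self_pow two_ne_zero m
          exact this
  calc √ (∑ k, ‖v k‖ ^ 2) ≤ √ ((m * c) ^ 2) := Real.sqrt_le_sqrt h1
    _ = m * c := Real.sqrt_sq (by positivity)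

private theorem hol_norm_e (k : Fin m) {t : ℝ} (ht0 : 0 ≤ t) (ht : t ≤ 1) :
    ‖t • G.e k‖ ≤ 1 := by
  rw [pi_norm_le_iff_of_nonneg zero_le_one]
  intro i
  rw [Pi.smul_apply, G.e_apply, smul_eq_mul, Real.norm_eq_abs]
  split_ifs
  · rw [mul_one, abs_of_nonneg ht0]
    exact ht
  · simp

private theorem hol_lip {lam Lam α r : ℝ} (h1 : P1 G lam Lam α 1 r) :
    ∃ C d0 : ℝ, 0 < C ∧ 0 < d0 ∧ ∀ (B : Hv m → Hv m) (M : ℝ) (u : Pt N → ℝ) (F : Pt N → Hv m),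
      UU lam Lam B → 0 ≤ M → Gd G α B M u F →
      ∀ p ∈ G.B 0 r, ∀ q ∈ G.B 0 r, ‖q - p‖ ≤ d0 → |u q - u p| ≤ C * M * ‖q - p‖ := by
  obtain ⟨C1, δ, hC1, hδ, hδ1, hin, h⟩ := h1
  obtain ⟨Rb, hRb, hb⟩ := G.ball_bdd 0 r
  obtain ⟨Cq, hCq, hq⟩ := G.quot_le Rb
  refine ⟨C1 * Cq, δ / Cq, by positivity, by positivity, ?_⟩
  intro B M u F hB hM hu p hp q hq' hd
  have h2 : ‖G.mul q (-p)‖ ≤ Cq * ‖q - p‖ := hq p q (hb p hp) (hb q hq')
  have h3 : ‖G.mul q (-p)‖ ≤ δ := h2.trans (by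
    rw [le_div_iff₀ hCq] at hd
    linarith)
  have h4 := h B M u F hB hM hu (G.mul q (-p)) h3 p hp
  rw [G.mul_neg_mul', Real.rpow_one] at h4
  refine h4.trans ?_
  calc C1 * M * ‖G.mul q (-p)‖ ≤ C1 * M * (Cq * ‖q - p‖) :=
        mul_le_mul_of_nonneg_left h2 (by positivity)
    _ = _ := by ring

private theorem hol_small {lam Lam α ε r r' : ℝ} (hε0 : 0 < ε) (hε1 : ε < 1) (hr : r' < r)
    (h1 : P1 G lam Lam α 1 r) {C3 : ℝ} (hC3 : 0 < C3) (J : ℕ) :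
    ∃ C d0 : ℝ, 0 < C ∧ 0 < d0 ∧ ∀ (B : Hv m → Hv m) (M : ℝ) (u : Pt N → ℝ) (F : Pt N → Hv m),
      UU lam Lam B → 0 ≤ M → Gd G α B M u F →
      ∀ (V : Pt N → Hv m), (∀ x ∈ G.B 0 r, ∀ (k : Fin m) (j : ℕ), J ≤ j →
          |2 ^ j * (u (G.mul x (((2 : ℝ) ^ j)⁻¹ • G.e k)) - u x) - V x k| ≤
            C3 * M * (((2 : ℝ) ^ j)⁻¹) ^ ε) →
      ∀ x ∈ G.B 0 r', ∀ y ∈ G.B 0 r', ‖x - y‖ ≤ d0 →
        ∀ k, |V x k - V y k| ≤ C * M * ‖x - y‖ ^ (ε / 2) := by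
  obtain ⟨CL, dL, hCL, hdL, hlip⟩ := hol_lip h1
  obtain ⟨Rb, hRb, hb⟩ := G.ball_bdd 0 r
  obtain ⟨Cm, hCm, hm⟩ := G.mul_lip (max Rb 1)
  have hrr : 0 < r - r' := sub_pos.2 hr
  refine ⟨2 * C3 + 2 * (CL * (Cm + 1)),
    min (min 1 (dL / (Cm + 1))) (min ((((2 : ℝ) ^ J)⁻¹) ^ 2) ((r - r') ^ 2)),
    by positivity, by positivity, ?_⟩
  intro B M u F hB hM hu V hV x hx y hy hd k
  set d := ‖x - y‖ with hddef
  have hd1 : d ≤ 1 := hd.trans ((min_le_left _ _).trans (min_le_left _ _))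
  have hd2 : d ≤ dL / (Cm + 1) := hd.trans ((min_le_left _ _).trans (min_le_right _ _))
  have hd3 : d ≤ (((2 : ℝ) ^ J)⁻¹) ^ 2 := hd.trans ((min_le_right _ _).trans (min_le_left _ _))
  have hd4 : d ≤ (r - r') ^ 2 := hd.trans ((min_le_right _ _).trans (min_le_right _ _))
  have hdn : 0 ≤ d := norm_nonneg _
  rcases hdn.eq_or_lt with h0 | h0
  · have hxy : x = y := by
      rw [← sub_eq_zero, ← norm_eq_zero]
      exact h0.symm
    rw [hxy, sub_self, abs_zero]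
    positivity
  set s := √ d with hs
  have hs0 : 0 < s := Real.sqrt_pos.2 h0
  have hs2 : s ^ 2 = d := Real.sq_sqrt hdn
  have hs1 : s ≤ 1 := by
    have h := Real.sqrt_le_sqrt hd1
    rwa [Real.sqrt_one] at h
  have hsJ : s ≤ ((2 : ℝ) ^ J)⁻¹ := by
    have h := Real.sqrt_le_sqrt hd3
    rwa [Real.sqrt_sq (by positivity)] at h
  have hsr : s ≤ r - r' := by
    have h := Real.sqrt_le_sqrt hd4
    rwa [Real.sqrt_sq hrr.le] at h
  obtain ⟨n, hn1, hn2⟩ := exists_nat_pow_near_of_lt_one hs0 hs1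
    (show (0 : ℝ) < 1 / 2 by norm_num) (show (1 / 2 : ℝ) < 1 by norm_num)
  set t : ℝ := ((2 : ℝ) ^ (n + 1))⁻¹ with ht
  have ht0 : 0 < t := by positivity
  have hte : t = (1 / 2 : ℝ) ^ (n + 1) := by
    rw [ht, one_div, inv_pow]
  have hts : t < s := by
    rw [hte]
    exact hn1
  have hst : s ≤ 2 * t := by
    rw [hte, pow_succ]
    linarith
  have hJ : J ≤ n + 1 := by
    by_contra hcon
    have hlt : n + 1 < J := not_le.1 hcon
    have h2 : ((2 : ℝ) ^ J)⁻¹ ≤ t := by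
      rw [ht]
      apply inv_anti₀ (by positivity)
      exact pow_le_pow_right₀ (by norm_num) hlt.le
    linarith
  have h2t : (2 : ℝ) ^ (n + 1) * t = 1 := by
    rw [ht]
    exact mul_inv_cancel₀ (by positivity)
  have h2s : (2 : ℝ) ^ (n + 1) * s ≤ 2 := by
    calc (2 : ℝ) ^ (n + 1) * s ≤ (2 : ℝ) ^ (n + 1) * (2 * t) :=
          mul_le_mul_of_nonneg_left hst (by positivity)
      _ = 2 * ((2 : ℝ) ^ (n + 1) * t) := by ring
      _ = 2 := by rw [h2t]; norm_num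
  have hsub : ∀ z, z ∈ G.B 0 r' → z ∈ G.B 0 r := fun z hz => lt_trans hz hr
  have htr : |t| ≤ r - r' := by
    rw [abs_of_pos ht0]
    linarith
  have hxg := G.right_small hx htr k
  have hyg := G.right_small hy htr k
  have hg1 : ‖t • G.e k‖ ≤ max Rb 1 :=
    (hol_norm_e k ht0.le (by linarith)).trans (le_max_right _ _)
  have hxyg : ‖G.mul x (t • G.e k) - G.mul y (t • G.e k)‖ ≤ Cm * d := by
    have h := hm x y (t • G.e k) (t • G.e k) ((hb x (hsub x hx)).trans (le_max_left _ _))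
      ((hb y (hsub y hy)).trans (le_max_left _ _)) hg1 hg1
    rwa [sub_self, norm_zero, add_zero] at h
  rw [le_div_iff₀ (by positivity)] at hd2
  have hA : |u (G.mul x (t • G.e k)) - u (G.mul y (t • G.e k))| ≤ CL * M * (Cm * d) :=
    (hlip B M u F hB hM hu _ hyg _ hxg (by nlinarith)).trans
      (mul_le_mul_of_nonneg_left hxyg (by positivity))
  have hA' : |u x - u y| ≤ CL * M * d :=
    hlip B M u F hB hM hu _ (hsub y hy) _ (hsub x hx) (by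
      show d ≤ dL
      nlinarith)
  have hBx := hV x (hsub x hx) k (n + 1) hJ
  have hBy := hV y (hsub y hy) k (n + 1) hJ
  rw [← ht] at hBx hBy
  have hte2 : t ^ ε ≤ d ^ (ε / 2) := by
    calc t ^ ε ≤ s ^ ε := Real.rpow_le_rpow ht0.le hts.le hε0.le
      _ = d ^ (ε / 2) := by
        rw [← hs2, ← Real.rpow_natCast s 2, ← Real.rpow_mul hs0.le]
        congr 1
        push_cast
        ring
  have hsd : s ≤ d ^ (ε / 2) := by
    calc s = s ^ (1 : ℝ) := (Real.rpow_one s).symm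
      _ ≤ s ^ ε := Real.rpow_le_rpow_of_exponent_ge hs0 hs1 hε1.le
      _ = d ^ (ε / 2) := by
        rw [← hs2, ← Real.rpow_natCast s 2, ← Real.rpow_mul hs0.le]
        congr 1
        push_cast
        ring
  have hdd : (2 : ℝ) ^ (n + 1) * d ≤ 2 * d ^ (ε / 2) := by
    calc (2 : ℝ) ^ (n + 1) * d = ((2 : ℝ) ^ (n + 1) * s) * s := by rw [← hs2]; ring
      _ ≤ 2 * s := mul_le_mul_of_nonneg_right h2s hs0.le
      _ ≤ 2 * d ^ (ε / 2) := by linarith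
  have hdec : V x k - V y k =
      -(2 ^ (n + 1) * (u (G.mul x (t • G.e k)) - u x) - V x k)
      + (2 ^ (n + 1) * (u (G.mul y (t • G.e k)) - u y) - V y k)
      + (2 ^ (n + 1) * (u (G.mul x (t • G.e k)) - u (G.mul y (t • G.e k)))
        - 2 ^ (n + 1) * (u x - u y)) := by ring
  have hf1 : |2 ^ (n + 1) * (u (G.mul x (t • G.e k)) - u (G.mul y (t • G.e k)))
        - 2 ^ (n + 1) * (u x - u y)| ≤ 2 ^ (n + 1) * (CL * M * (Cm * d)) +
          2 ^ (n + 1) * (CL * M * d) := by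
    refine (abs_sub _ _).trans ?_
    rw [abs_mul, abs_mul, abs_of_pos (show (0 : ℝ) < 2 ^ (n + 1) by positivity)]
    exact add_le_add (mul_le_mul_of_nonneg_left hA (by positivity))
      (mul_le_mul_of_nonneg_left hA' (by positivity))
  have hf2 : 2 ^ (n + 1) * (CL * M * (Cm * d)) + 2 ^ (n + 1) * (CL * M * d) ≤
      2 * (CL * (Cm + 1)) * M * d ^ (ε / 2) := by
    calc 2 ^ (n + 1) * (CL * M * (Cm * d)) + 2 ^ (n + 1) * (CL * M * d)
        = (CL * (Cm + 1) * M) * (2 ^ (n + 1) * d) := by ring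
      _ ≤ (CL * (Cm + 1) * M) * (2 * d ^ (ε / 2)) :=
        mul_le_mul_of_nonneg_left hdd (by positivity)
      _ = _ := by ring
  have hf3 : C3 * M * t ^ ε ≤ C3 * M * d ^ (ε / 2) :=
    mul_le_mul_of_nonneg_left hte2 (by positivity)
  rw [hdec]
  refine (abs_add_three _ _ _).trans ?_
  rw [abs_neg]
  calc _ ≤ C3 * M * t ^ ε + C3 * M * t ^ ε + (2 ^ (n + 1) * (CL * M * (Cm * d)) +
          2 ^ (n + 1) * (CL * M * d)) := add_le_add (add_le_add hBx hBy) hf1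
    _ ≤ C3 * M * d ^ (ε / 2) + C3 * M * d ^ (ε / 2) + 2 * (CL * (Cm + 1)) * M * d ^ (ε / 2) :=
        add_le_add (add_le_add hf3 hf3) hf2
    _ = _ := by ring

theorem V_holder {lam Lam α ε r r' : ℝ} (hα : 0 < α) (hε0 : 0 < ε) (hε1 : ε < 1) (hr : r' < r)
    (h1 : P1 G lam Lam α 1 r) (h3 : P3 G lam Lam α ε r) :
    ∃ C : ℝ, 0 < C ∧ ∀ (B : Hv m → Hv m) (M : ℝ) (u : Pt N → ℝ) (F : Pt N → Hv m), UU lam Lam B →
      0 ≤ M → Gd G α B M u F → ∃ V : Pt N → Hv m, (∀ᵐ x, x ∈ G.B 0 r → F x = V x) ∧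
        (∀ x ∈ G.B 0 r', ‖V x‖ ≤ C * M) ∧
        ∀ x ∈ G.B 0 r', ∀ y ∈ G.B 0 r', ‖V x - V y‖ ≤ C * M * ‖x - y‖ ^ (ε / 2) := by
  classical
  obtain ⟨C3, J, hC3, hin3, h3⟩ := h3
  obtain ⟨C, d0, hC, hd0, hsm⟩ := hol_small (G := G) hε0 hε1 hr h1 hC3 J
  have hin1 : ∀ x ∈ G.B 0 r, x ∈ G.B 0 (1 / 2) := by
    obtain ⟨C1, δ, hC1, hδ, hδ1, hin, -⟩ := h1
    intro x hx
    have := hin 0 (by rw [norm_zero]; exact hδ.le) x hx
    rwa [G.zero_mul] at this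
  refine ⟨m * C + 2 * m * C3 * (d0 ^ (ε / 2))⁻¹ + m * C3 + 1, by positivity, ?_⟩
  intro B M u F hB hM hu
  choose! L hL1 hL2 using h3 B M u F hB hM hu
  let V : Pt N → Hv m := fun x => WithLp.toLp 2 (fun k => L x k)
  have hVk : ∀ x k, V x k = L x k := fun x k => rfl
  have hq : ∀ x ∈ G.B 0 r, ∀ (k : Fin m) (j : ℕ), J ≤ j →
      |2 ^ j * (u (G.mul x (((2 : ℝ) ^ j)⁻¹ • G.e k)) - u x) - V x k| ≤
        C3 * M * (((2 : ℝ) ^ j)⁻¹) ^ ε := fun x hx k j hj => hL2 x hx k j hj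
  have hc0 : Tendsto (fun j : ℕ => C3 * M * (((2 : ℝ) ^ j)⁻¹) ^ ε) atTop (𝓝 0) := by
    have h2 : Tendsto (fun j : ℕ => ((2 : ℝ) ^ j)⁻¹) atTop (𝓝 0) :=
      tendsto_inv_atTop_zero.comp (tendsto_pow_atTop_atTop_of_one_lt (by norm_num))
    have h4 : Tendsto (fun j : ℕ => (((2 : ℝ) ^ j)⁻¹) ^ ε) atTop (𝓝 ((0 : ℝ) ^ ε)) :=
      h2.rpow_const (Or.inr hε0.le)
    rw [Real.zero_rpow hε0.ne'] at h4
    have h5 := h4.const_mul (C3 * M)
    rwa [MulZeroClass.mul_zero] at h5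
  refine ⟨V, grad_eq (G.isOpen_B 0 r) hin1 hu.sol.toHW (hu.cont hα) hc0 hq, ?_, ?_⟩
  · intro x hx
    have hx' : x ∈ G.B 0 r := lt_trans hx hr
    have h5 : ‖V x‖ ≤ m * (C3 * M) :=
      hol_norm_le (by positivity) fun k => by
        rw [hVk]
        exact hL1 x hx' k
    refine h5.trans ?_
    have h6 : (0 : ℝ) ≤ (m * C + 2 * m * C3 * (d0 ^ (ε / 2))⁻¹ + 1) * M := by positivity
    nlinarith
  · intro x hx y hy
    have hx' : x ∈ G.B 0 r := lt_trans hx hr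
    have hy' : y ∈ G.B 0 r := lt_trans hy hr
    have hpow : (0 : ℝ) ≤ ‖x - y‖ ^ (ε / 2) := Real.rpow_nonneg (norm_nonneg _) _
    rcases le_or_gt ‖x - y‖ d0 with hd | hd
    · have h5 : ‖V x - V y‖ ≤ m * (C * M * ‖x - y‖ ^ (ε / 2)) :=
        hol_norm_le (by positivity) fun k => hsm B M u F hB hM hu V hq x hx y hy hd k
      refine h5.trans ?_
      have h6 : (0 : ℝ) ≤ (2 * m * C3 * (d0 ^ (ε / 2))⁻¹ + m * C3 + 1) * M * ‖x - y‖ ^ (ε / 2) := by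
        positivity
      linarith
    · have h5 : ‖V x - V y‖ ≤ m * (2 * (C3 * M)) :=
        hol_norm_le (by positivity) fun k => by
          have h7 : (V x - V y) k = L x k - L y k := rfl
          rw [h7]
          refine (abs_sub _ _).trans ?_
          have h8 := hL1 x hx' k
          have h9 := hL1 y hy' k
          linarith
      have h6 : d0 ^ (ε / 2) ≤ ‖x - y‖ ^ (ε / 2) :=
        Real.rpow_le_rpow hd0.le hd.le (by positivity)
      have h7 : (0 : ℝ) < d0 ^ (ε / 2) := Real.rpow_pos_of_pos hd0 _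
      have h8 : 1 ≤ (d0 ^ (ε / 2))⁻¹ * ‖x - y‖ ^ (ε / 2) := by
        rw [← inv_mul_cancel₀ h7.ne']
        exact mul_le_mul_of_nonneg_left h6 (by positivity)
      have h9 : m * (2 * (C3 * M)) ≤
          m * (2 * (C3 * M)) * ((d0 ^ (ε / 2))⁻¹ * ‖x - y‖ ^ (ε / 2)) :=
        le_mul_of_one_le_right (by positivity) h8
      have h10 : (0 : ℝ) ≤ (m * C + m * C3 + 1) * M * ‖x - y‖ ^ (ε / 2) := by positivity
      refine h5.trans (h9.trans ?_)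
      linarith

end Pool.Agent.CG
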