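import Mathlib

/-!
# CG-D-Zyg: real lemmas on functions with small dyadic second differences (Zygmund)

PLAN.  `zyg_lt`: take `K = 2 + 1 / (1 - 2^(g-1))` (note `2^(g-1) < 1`).  Claim by induction on `n`: the bound holds for
`t ∈ (δ 2^{-(n+1)}, δ 2^{-n}]`.  `n = 0`: `|φ t| ≤ M` and `t^g ≥ t ≥ δ/2` (`t ≤ 1`, `g < 1`) so `(K/δ) t^g ≥ K/2 ≥ 1`.
Step: `2t` is in the previous interval, `|φ t| ≤ |φ (2t)|/2 + M t^g / 2 ≤ (K/δ) M t^g (2^(g-1) + δ/(2K))` and
`δ/(2K) ≤ 1/(2K) ≤ 1 - 2^(g-1)`.  (Every `t ∈ (0, δ]` is in such an interval: `exists_nat_pow_near` or strong induction on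
`n` with `δ < 2^n t`.)
`zyg_gt`: `ψ t = φ t / t`, `|ψ (2t) - ψ t| ≤ (M/2) t^ε` (as `t^(1+ε) = t * t^ε`).  (i) as above, with the stronger
claim `|φ t| ≤ (2/δ + (δ^ε - t^ε)/(2(2^ε - 1))) M t`.
(ii) `a j = ψ (t 2^{-j})` is Cauchy: `|a (j+1) - a j| ≤ (M/2) (t 2^{-(j+1)})^ε`, a geometric sequence with ratio `2^{-ε} < 1`
(`cauchySeq_of_le_geometric`, `dist_le_of_le_geometric_of_tendsto`); `L` the limit; `|a j - L| ≤ K M (t 2^{-j})^ε`; and `|L| ≤ (K/δ) M` by (i).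
`K = 2 + 1/(2^ε - 1)`.
-/

set_option autoImplicit false

namespace Pool.Agent.CG

open Filter Topology

theorem zyg_lt {g : ℝ} (hg0 : 0 < g) (hg : g < 1) : ∃ K : ℝ, 0 < K ∧
    ∀ (δ M : ℝ) (φ : ℝ → ℝ), 0 < δ → δ ≤ 1 → 0 ≤ M → (∀ t, 0 < t → t ≤ δ → |φ t| ≤ M) →
      (∀ t, 0 < t → 2 * t ≤ δ → |φ (2 * t) - 2 * φ t| ≤ M * t ^ g) →
      ∀ t, 0 < t → t ≤ δ → |φ t| ≤ K / δ * M * t ^ g := by
  have h2 : (2 : ℝ) ^ g < 2 := by
    have := Real.rpow_lt_rpow_of_exponent_lt (x := 2) (by norm_num) hg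
    rwa [Real.rpow_one] at this
  set a : ℝ := (2 : ℝ) ^ g / 2 with ha
  have ha1 : 0 < 1 - a := by
    rw [ha]
    linarith
  have hK0 : 0 < 2 + 1 / (1 - a) := by positivity
  refine ⟨2 + 1 / (1 - a), hK0, ?_⟩
  intro δ M φ hδ hδ1 hM hφ hφ2
  set K : ℝ := 2 + 1 / (1 - a) with hK
  have hK1 : 1 ≤ K * (1 - a) := by
    rw [hK, add_mul, one_div, inv_mul_cancel₀ ha1.ne']
    linarith
  have hK2 : 2 ≤ K := by
    have : 0 ≤ 1 / (1 - a) := by positivity
    linarith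
  have claim : ∀ n : ℕ, ∀ t, 0 < t → t ≤ δ → δ < 2 ^ (n + 1) * t → |φ t| ≤ K / δ * M * t ^ g := by
    intro n
    induction n with
    | zero =>
      intro t ht0 ht1 ht2
      have h3 : t ≤ t ^ g := by
        have := Real.rpow_le_rpow_of_exponent_ge ht0 (ht1.trans hδ1) hg.le
        rwa [Real.rpow_one] at this
      have h4 : 1 ≤ K / δ * t ^ g := by
        have h5 : 1 ≤ K / δ * t := by
          rw [div_mul_eq_mul_div, le_div_iff₀ hδ]
          have : K * t ≥ 2 * t := mul_le_mul_of_nonneg_right hK2 ht0.le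
          norm_num at ht2
          linarith
        exact h5.trans (mul_le_mul_of_nonneg_left h3 (by positivity))
      calc |φ t| ≤ M := hφ t ht0 ht1
        _ = 1 * M := (one_mul M).symm
        _ ≤ (K / δ * t ^ g) * M := mul_le_mul_of_nonneg_right h4 hM
        _ = K / δ * M * t ^ g := by ring
    | succ n ih =>
      intro t ht0 ht1 ht2
      rcases lt_or_ge δ (2 ^ (n + 1) * t) with h3 | h3
      · exact ih t ht0 ht1 h3
      have h4 : 2 * t ≤ δ := by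
        have h5 : (2 : ℝ) ≤ 2 ^ (n + 1) := by
          have : (2 : ℝ) ^ 1 ≤ 2 ^ (n + 1) := pow_le_pow_right₀ (by norm_num) (by omega)
          simpa using this
        exact (mul_le_mul_of_nonneg_right h5 ht0.le).trans h3
      have h5 := ih (2 * t) (by positivity) h4 (by
        calc δ < 2 ^ (n + 1 + 1) * t := ht2
          _ = 2 ^ (n + 1) * (2 * t) := by ring)
      have h6 := hφ2 t ht0 h4
      have h7 : (2 * t) ^ g = 2 * a * t ^ g := by
        rw [Real.mul_rpow (by norm_num) ht0.le, ha]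
        ring
      rw [h7] at h5
      have htg : 0 ≤ t ^ g := by positivity
      have h8 : 2 * |φ t| ≤ |φ (2 * t)| + M * t ^ g := by
        have h9 : 2 * φ t = φ (2 * t) - (φ (2 * t) - 2 * φ t) := by ring
        have h10 : |2 * φ t| ≤ |φ (2 * t)| + |φ (2 * t) - 2 * φ t| := by
          rw [h9]
          refine (abs_sub _ _).trans ?_
          have e : φ (2 * t) - (φ (2 * t) - 2 * φ t) = 2 * φ t := by ring
          rw [e]
        rw [abs_mul, abs_of_pos (by norm_num : (0 : ℝ) < 2)] at h10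
        linarith
      have h11 : M * t ^ g ≤ K / δ * (1 - a) * (M * t ^ g) := by
        have h12 : 1 ≤ K / δ * (1 - a) := by
          rw [div_mul_eq_mul_div, le_div_iff₀ hδ]
          linarith
        have h13 : 0 ≤ M * t ^ g := by positivity
        nlinarith [mul_le_mul_of_nonneg_right h12 h13]
      have h14 : 0 ≤ M * t ^ g := by positivity
      have h15 : K / δ * M * (2 * a * t ^ g) = 2 * (K / δ * a * (M * t ^ g)) := by ring
      have h16 : K / δ * M * t ^ g = K / δ * a * (M * t ^ g) + K / δ * (1 - a) * (M * t ^ g) := by ring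
      rw [h15] at h5
      rw [h16]
      linarith
  intro t ht0 ht1
  obtain ⟨n, hn⟩ := pow_unbounded_of_one_lt (δ / t) (one_lt_two (α := ℝ))
  refine claim n t ht0 ht1 ?_
  rw [div_lt_iff₀ ht0] at hn
  have h3 : (2 : ℝ) ^ n * t ≤ 2 ^ (n + 1) * t :=
    mul_le_mul_of_nonneg_right (pow_le_pow_right₀ (by norm_num) (by omega)) ht0.le
  linarith

theorem zyg_gt {ε : ℝ} (hε0 : 0 < ε) : ∃ K : ℝ, 0 < K ∧
    ∀ (δ M : ℝ) (φ : ℝ → ℝ), 0 < δ → δ ≤ 1 → 0 ≤ M → (∀ t, 0 < t → t ≤ δ → |φ t| ≤ M) →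
      (∀ t, 0 < t → 2 * t ≤ δ → |φ (2 * t) - 2 * φ t| ≤ M * t ^ (1 + ε)) →
      (∀ t, 0 < t → t ≤ δ → |φ t| ≤ K / δ * M * t) ∧
      ∀ t, 0 < t → t ≤ δ → ∃ L : ℝ, |L| ≤ K / δ * M ∧
        ∀ j : ℕ, |φ (t * ((2 : ℝ) ^ j)⁻¹) / (t * ((2 : ℝ) ^ j)⁻¹) - L| ≤
          K * M * (t * ((2 : ℝ) ^ j)⁻¹) ^ ε := by
  set d : ℝ := (2 : ℝ) ^ ε with hd
  have hd1 : 1 < d := Real.one_lt_rpow (by norm_num) hε0
  have hd2 : 0 < d - 1 := by linarith
  have hd0 : 0 < d := by linarith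
  have hK0 : 0 < 2 + 1 / (d - 1) := by positivity
  refine ⟨2 + 1 / (d - 1), hK0, ?_⟩
  intro δ M φ hδ hδ1 hM hφ hφ2
  set K : ℝ := 2 + 1 / (d - 1) with hK
  have hdε : ∀ t : ℝ, 0 < t → (2 * t) ^ ε = d * t ^ ε := fun t ht =>
    Real.mul_rpow (by norm_num) ht.le
  have claim : ∀ n : ℕ, ∀ t, 0 < t → t ≤ δ → δ < 2 ^ (n + 1) * t →
      |φ t| ≤ (2 / δ + (δ ^ ε - t ^ ε) / (2 * (d - 1))) * (M * t) := by
    intro n
    induction n with
    | zero =>
      intro t ht0 ht1 ht2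
      have h3 : 0 ≤ (δ ^ ε - t ^ ε) / (2 * (d - 1)) :=
        div_nonneg (sub_nonneg.2 (Real.rpow_le_rpow ht0.le ht1 hε0.le)) (by positivity)
      have h4 : M ≤ 2 / δ * (M * t) := by
        have h5 : 1 ≤ 2 / δ * t := by
          rw [div_mul_eq_mul_div, le_div_iff₀ hδ]
          norm_num at ht2
          linarith
        calc M = 1 * M := (one_mul M).symm
          _ ≤ 2 / δ * t * M := mul_le_mul_of_nonneg_right h5 hM
          _ = 2 / δ * (M * t) := by ring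
      rw [add_mul]
      have h6 : 0 ≤ (δ ^ ε - t ^ ε) / (2 * (d - 1)) * (M * t) := mul_nonneg h3 (by positivity)
      linarith [hφ t ht0 ht1]
    | succ n ih =>
      intro t ht0 ht1 ht2
      rcases lt_or_ge δ (2 ^ (n + 1) * t) with h3 | h3
      · exact ih t ht0 ht1 h3
      have h4 : 2 * t ≤ δ := by
        have h5 : (2 : ℝ) ≤ 2 ^ (n + 1) := by
          have : (2 : ℝ) ^ 1 ≤ 2 ^ (n + 1) := pow_le_pow_right₀ (by norm_num) (by omega)
          simpa using this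
        exact (mul_le_mul_of_nonneg_right h5 ht0.le).trans h3
      have h5 := ih (2 * t) (by positivity) h4 (by
        calc δ < 2 ^ (n + 1 + 1) * t := ht2
          _ = 2 ^ (n + 1) * (2 * t) := by ring)
      have h6 := hφ2 t ht0 h4
      rw [hdε t ht0] at h5
      have h8 : 2 * |φ t| ≤ |φ (2 * t)| + M * t ^ (1 + ε) := by
        have h9 : 2 * φ t = φ (2 * t) - (φ (2 * t) - 2 * φ t) := by ring
        have h10 : |2 * φ t| ≤ |φ (2 * t)| + |φ (2 * t) - 2 * φ t| := by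
          rw [h9]
          refine (abs_sub _ _).trans ?_
          have e : φ (2 * t) - (φ (2 * t) - 2 * φ t) = 2 * φ t := by ring
          rw [e]
        rw [abs_mul, abs_of_pos (by norm_num : (0 : ℝ) < 2)] at h10
        linarith
      rw [Real.rpow_add ht0, Real.rpow_one] at h8
      have h9 : (2 / δ + (δ ^ ε - t ^ ε) / (2 * (d - 1))) * (M * t) =
          ((2 / δ + (δ ^ ε - d * t ^ ε) / (2 * (d - 1))) * (M * (2 * t)) + M * (t * t ^ ε)) / 2 := by
        field_simp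
        ring
      rw [h9]
      linarith
  have hi : ∀ t, 0 < t → t ≤ δ → |φ t| ≤ K / δ * M * t := by
    intro t ht0 ht1
    obtain ⟨n, hn⟩ := pow_unbounded_of_one_lt (δ / t) (one_lt_two (α := ℝ))
    have h3 := claim n t ht0 ht1 (by
      rw [div_lt_iff₀ ht0] at hn
      have h3 : (2 : ℝ) ^ n * t ≤ 2 ^ (n + 1) * t :=
        mul_le_mul_of_nonneg_right (pow_le_pow_right₀ (by norm_num) (by omega)) ht0.le
      linarith)
    refine h3.trans ?_
    have h4 : 2 / δ + (δ ^ ε - t ^ ε) / (2 * (d - 1)) ≤ K / δ := by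
      rw [hK, add_div]
      have h5 : (δ ^ ε - t ^ ε) / (2 * (d - 1)) ≤ 1 / (d - 1) / δ := by
        have h6 : δ ^ ε ≤ 1 := Real.rpow_le_one hδ.le hδ1 hε0.le
        have h7 : 0 ≤ t ^ ε := by positivity
        calc (δ ^ ε - t ^ ε) / (2 * (d - 1)) ≤ 1 / (2 * (d - 1)) :=
              div_le_div_of_nonneg_right (by linarith) (by positivity)
          _ ≤ 1 / (d - 1) := one_div_le_one_div_of_le hd2 (by linarith)
          _ ≤ 1 / (d - 1) / δ := by
              rw [le_div_iff₀ hδ]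
              have : 0 ≤ 1 / (d - 1) := by positivity
              nlinarith
      linarith
    calc (2 / δ + (δ ^ ε - t ^ ε) / (2 * (d - 1))) * (M * t) ≤ K / δ * (M * t) :=
          mul_le_mul_of_nonneg_right h4 (by positivity)
      _ = K / δ * M * t := by ring
  refine ⟨hi, ?_⟩
  intro t ht0 ht1
  set a : ℕ → ℝ := fun j => φ (t * ((2 : ℝ) ^ j)⁻¹) / (t * ((2 : ℝ) ^ j)⁻¹) with ha
  have hs0 : ∀ j : ℕ, 0 < t * ((2 : ℝ) ^ j)⁻¹ := fun j => by positivity
  have hs1 : ∀ j : ℕ, t * ((2 : ℝ) ^ j)⁻¹ ≤ δ := fun j => by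
    have h1 : ((2 : ℝ) ^ j)⁻¹ ≤ 1 := inv_le_one_of_one_le₀ (one_le_pow₀ (by norm_num))
    calc t * ((2 : ℝ) ^ j)⁻¹ ≤ t * 1 := mul_le_mul_of_nonneg_left h1 ht0.le
      _ ≤ δ := by linarith
  have hpow : ∀ j : ℕ, (t * ((2 : ℝ) ^ j)⁻¹) ^ ε = t ^ ε * d⁻¹ ^ j := by
    intro j
    rw [Real.mul_rpow ht0.le (by positivity), Real.inv_rpow (by positivity), ← Real.rpow_natCast,
      ← Real.rpow_mul (by norm_num), mul_comm (j : ℝ) ε, Real.rpow_mul (by norm_num), Real.rpow_natCast,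
      ← hd, inv_pow]
  have hstep : ∀ j : ℕ, dist (a j) (a (j + 1)) ≤ M * t ^ ε / (2 * d) * d⁻¹ ^ j := by
    intro j
    have h1 : t * ((2 : ℝ) ^ j)⁻¹ = 2 * (t * ((2 : ℝ) ^ (j + 1))⁻¹) := by
      rw [pow_succ, mul_inv]
      field_simp
    have h2 := hφ2 (t * ((2 : ℝ) ^ (j + 1))⁻¹) (hs0 (j + 1)) (by rw [← h1]; exact hs1 j)
    rw [Real.rpow_add (hs0 (j + 1)), Real.rpow_one, hpow (j + 1)] at h2
    have hpos := hs0 (j + 1)
    simp only [ha]
    rw [h1, Real.dist_eq]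
    generalize t * ((2 : ℝ) ^ (j + 1))⁻¹ = s at *
    have h3 : φ (2 * s) / (2 * s) - φ s / s = (φ (2 * s) - 2 * φ s) / (2 * s) := by
      field_simp
    rw [h3, abs_div, abs_of_pos (by positivity : 0 < 2 * s), div_le_iff₀ (by positivity)]
    refine h2.trans (le_of_eq ?_)
    rw [pow_succ]
    field_simp
  have hr1 : d⁻¹ < 1 := inv_lt_one_of_one_lt₀ hd1
  have hcau : CauchySeq a := cauchySeq_of_le_geometric _ _ hr1 hstep
  obtain ⟨L, hL⟩ := cauchySeq_tendsto_of_complete hcau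
  refine ⟨L, ?_, ?_⟩
  · refine le_of_tendsto hL.abs (Eventually.of_forall fun j => ?_)
    simp only [ha]
    rw [abs_div, abs_of_pos (hs0 j), div_le_iff₀ (hs0 j)]
    exact hi _ (hs0 j) (hs1 j)
  · intro j
    have h1 := dist_le_of_le_geometric_of_tendsto _ _ hr1 hstep hL j
    rw [Real.dist_eq] at h1
    refine h1.trans ?_
    rw [hpow j]
    have h2 : M * t ^ ε / (2 * d) * d⁻¹ ^ j / (1 - d⁻¹) = (1 / (2 * (d - 1))) * (M * (t ^ ε * d⁻¹ ^ j)) := by
      have h3 : (1 - d⁻¹) = (d - 1) / d := by field_simp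
      rw [h3]
      field_simp
    rw [h2, mul_assoc K]
    refine mul_le_mul_of_nonneg_right ?_ (by positivity)
    have h4 : 1 / (2 * (d - 1)) ≤ 1 / (d - 1) := one_div_le_one_div_of_le hd2 (by linarith)
    rw [hK]
    linarith

end Pool.Agent.CG
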