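import Pool.Agent.CG.D.Start
import Pool.Agent.CG.D.Zyg

/-!
# CG-D-ZygA: second differences control first differences

PLAN.  Let `C, δ` be the constants of `P2`.  For `x ∈ B 0 r` and a vector `Z`, `φ t = u (mul (t • Z) x) - u x`; `‖t • Z‖ = |t| ‖Z‖`.
By `P2` with `h = t • Z` (`2 • (t • Z) = (2t) • Z`, `smul_smul`): `|φ (2t) - 2 φ t| ≤ C M ‖t Z‖^g` if `t ‖Z‖ ≤ δ`.
`|φ t| ≤ M` if `t ‖Z‖ ≤ 2 δ`: both points are in `B 0 (1/2)` (`P2` inclusion; `x` itself by `h = 0`), so `di < 1` and `di ^ α ≤ 1`.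
`P1_of_P2`: `Z = h/‖h‖` (`h = 0` trivial: both sides 0, `Real.zero_rpow`), `zyg_lt` with `δ`, `M' = max C 1 * M`, `t = ‖h‖`.  New constants
`K/δ * max C 1`, `δ`.
`P3_of_P2`: (a) `P1 1 r` in the same way with `zyg_gt` (`‖h‖ ^ (1:ℝ) = ‖h‖`).  (b) `ball_bdd 0 r` and `Zc_bdd` give `ρ ≥ 1` with `‖Zc k x‖ ≤ ρ`
on `B 0 r`; `φ t = u (mul (t • Zc k x) x) - u x = u (mul x (t • e_k)) - u x` (`mul_smul_e`), for `t ≤ δ' = δ/ρ`:
`|φ (2t) - 2 φ t| ≤ C M (ρ t)^(1+ε) ≤ C ρ^(1+ε) M t^(1+ε)`.  `J` with `2^{-J} ≤ δ'`; `zyg_gt` with `t = 2^{-J}`, and for `j ≥ J`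
`2^{-j} = 2^{-J} * (2^(j-J))⁻¹`; `φ s / s = 2^j * φ s` for `s = 2^{-j}`.
-/

set_option autoImplicit false

namespace Pool.Agent.CG

open MeasureTheory Set Filter Topology
open scoped ContDiff ENNReal

variable {N m : ℕ} {G : Carnot N m}

/-- Two points of `B 0 (1/2)`. -/
private theorem gd_bd {α : ℝ} {B : Hv m → Hv m} {M : ℝ} {u : Pt N → ℝ} {F : Pt N → Hv m}
    (hα : 0 < α) (hM : 0 ≤ M) (hu : Gd G α B M u F) {y z : Pt N} (hy : y ∈ G.B 0 (1 / 2))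
    (hz : z ∈ G.B 0 (1 / 2)) : |u y - u z| ≤ M := by
  have h1 := hu.hol y hy z hz
  have hy' : G.di 0 y < 1 / 2 := hy
  have hz' : G.di 0 z < 1 / 2 := hz
  have h2 : G.di y z ≤ 1 := by
    have := G.di_triangle y 0 z
    rw [G.di_comm y 0] at this
    linarith
  have h3 : G.di y z ^ α ≤ 1 := Real.rpow_le_one (G.di_nonneg y z) h2 hα.le
  calc |u y - u z| ≤ M * G.di y z ^ α := h1
    _ ≤ M * 1 := mul_le_mul_of_nonneg_left h3 hM
    _ = M := mul_one M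

/-- The function along a line: the hypotheses of the Zygmund lemmas. -/
private theorem line_hyp {lam Lam α g r C δ : ℝ} (hα : 0 < α) (hg0 : 0 ≤ g) (hC : 0 < C)
    (hin : ∀ h : Pt N, ‖h‖ ≤ 2 * δ → ∀ x ∈ G.B 0 r, G.mul h x ∈ G.B 0 (1 / 2))
    (hmain : ∀ (B : Hv m → Hv m) (M : ℝ) (u : Pt N → ℝ) (F : Pt N → Hv m), UU lam Lam B → 0 ≤ M →
      Gd G α B M u F → ∀ h : Pt N, ‖h‖ ≤ δ → ∀ x ∈ G.B 0 r,
        |u (G.mul ((2 : ℝ) • h) x) - 2 * u (G.mul h x) + u x| ≤ C * M * ‖h‖ ^ g)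
    {B : Hv m → Hv m} {M : ℝ} {u : Pt N → ℝ} {F : Pt N → Hv m} (hB : UU lam Lam B) (hM : 0 ≤ M)
    (hu : Gd G α B M u F) {x : Pt N} (hx : x ∈ G.B 0 r) {Z : Pt N} {ρ : ℝ} (hρ : 1 ≤ ρ)
    (hZ : ‖Z‖ ≤ ρ) (hδ : 0 < δ) :
    (∀ t, 0 < t → t ≤ δ / ρ → |u (G.mul (t • Z) x) - u x| ≤ max (C * ρ ^ g) 1 * M) ∧
    (∀ t, 0 < t → 2 * t ≤ δ / ρ → |(u (G.mul ((2 * t) • Z) x) - u x) -
      2 * (u (G.mul (t • Z) x) - u x)| ≤ max (C * ρ ^ g) 1 * M * t ^ g) := by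
  have hρ0 : 0 < ρ := by linarith
  have hx0 : x ∈ G.B 0 (1 / 2) := by
    have h := hin 0 (by rw [norm_zero]; linarith) x hx
    rwa [G.zero_mul] at h
  have hnorm : ∀ t, 0 < t → ‖t • Z‖ ≤ t * ρ := by
    intro t ht
    rw [norm_smul, Real.norm_of_nonneg ht.le]
    exact mul_le_mul_of_nonneg_left hZ ht.le
  refine ⟨?_, ?_⟩
  · intro t ht htd
    have h1 : t * ρ ≤ δ := by rwa [le_div_iff₀ hρ0] at htd
    have h2 := gd_bd hα hM hu (hin (t • Z) (by linarith [hnorm t ht]) x hx) hx0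
    calc |u (G.mul (t • Z) x) - u x| ≤ M := h2
      _ = 1 * M := (one_mul M).symm
      _ ≤ max (C * ρ ^ g) 1 * M := mul_le_mul_of_nonneg_right (le_max_right _ _) hM
  · intro t ht htd
    have h1 : 2 * t * ρ ≤ δ := by rwa [le_div_iff₀ hρ0] at htd
    have h3 := hnorm t ht
    have h2 := hmain B M u F hB hM hu (t • Z) (by nlinarith) x hx
    rw [smul_smul] at h2
    have h4 : u (G.mul ((2 * t) • Z) x) - u x - 2 * (u (G.mul (t • Z) x) - u x) =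
        u (G.mul ((2 * t) • Z) x) - 2 * u (G.mul (t • Z) x) + u x := by ring
    rw [h4]
    have h5 : ‖t • Z‖ ^ g ≤ ρ ^ g * t ^ g := by
      calc ‖t • Z‖ ^ g ≤ (t * ρ) ^ g := Real.rpow_le_rpow (norm_nonneg _) h3 hg0
        _ = ρ ^ g * t ^ g := by rw [Real.mul_rpow ht.le hρ0.le, mul_comm]
    have htg : 0 ≤ t ^ g := Real.rpow_nonneg ht.le g
    calc _ ≤ C * M * ‖t • Z‖ ^ g := h2
      _ ≤ C * M * (ρ ^ g * t ^ g) := mul_le_mul_of_nonneg_left h5 (mul_nonneg hC.le hM)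
      _ = (C * ρ ^ g) * M * t ^ g := by ring
      _ ≤ max (C * ρ ^ g) 1 * M * t ^ g := by
        apply mul_le_mul_of_nonneg_right _ htg
        exact mul_le_mul_of_nonneg_right (le_max_left _ _) hM

theorem P1_of_P2 {lam Lam α g r : ℝ} (hα : 0 < α) (hg0 : 0 < g) (hg : g < 1)
    (h : P2 G lam Lam α g r) : P1 G lam Lam α g r := by
  obtain ⟨C, δ, hC, hδ, hδ1, hin, hmain⟩ := h
  obtain ⟨K, hK, hzyg⟩ := zyg_lt hg0 hg
  have hm1 : (0 : ℝ) < max (C * 1 ^ g) 1 := lt_max_of_lt_right one_pos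
  refine ⟨K / δ * max (C * 1 ^ g) 1, δ, by positivity, hδ, hδ1,
    fun h hh x hx => hin h (by linarith) x hx, ?_⟩
  intro B M u F hB hM hu h hh x hx
  rcases eq_or_ne h 0 with rfl | h0
  · rw [G.zero_mul, sub_self, abs_zero]
    have : (0 : ℝ) ≤ ‖(0 : Pt N)‖ ^ g := Real.rpow_nonneg (norm_nonneg _) _
    positivity
  have hn : 0 < ‖h‖ := norm_pos_iff.2 h0
  obtain ⟨a1, a2⟩ := line_hyp hα hg0.le hC hin hmain hB hM hu hx (Z := ‖h‖⁻¹ • h) (ρ := 1) le_rfl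
    (by rw [norm_smul, norm_inv, norm_norm, inv_mul_cancel₀ hn.ne']) hδ
  rw [div_one] at a1 a2
  have h1 := hzyg δ (max (C * 1 ^ g) 1 * M) (fun t => u (G.mul (t • ‖h‖⁻¹ • h) x) - u x) hδ hδ1
    (by positivity) a1 a2 ‖h‖ hn hh
  beta_reduce at h1
  rw [smul_smul, mul_inv_cancel₀ hn.ne', one_smul] at h1
  calc _ ≤ _ := h1
    _ = _ := by ring

theorem P3_of_P2 {lam Lam α ε r : ℝ} (hα : 0 < α) (hε0 : 0 < ε)
    (h : P2 G lam Lam α (1 + ε) r) : P1 G lam Lam α 1 r ∧ P3 G lam Lam α ε r := by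
  obtain ⟨C, δ, hC, hδ, hδ1, hin, hmain⟩ := h
  obtain ⟨K, hK, hzyg⟩ := zyg_gt hε0
  have hg0 : (0 : ℝ) ≤ 1 + ε := by linarith
  refine ⟨?_, ?_⟩
  · have hm1 : (0 : ℝ) < max (C * 1 ^ (1 + ε)) 1 := lt_max_of_lt_right one_pos
    refine ⟨K / δ * max (C * 1 ^ (1 + ε)) 1, δ, by positivity, hδ, hδ1,
      fun h hh x hx => hin h (by linarith) x hx, ?_⟩
    intro B M u F hB hM hu h hh x hx
    rcases eq_or_ne h 0 with rfl | h0
    · rw [G.zero_mul, sub_self, abs_zero]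
      have : (0 : ℝ) ≤ ‖(0 : Pt N)‖ ^ (1 : ℝ) := Real.rpow_nonneg (norm_nonneg _) _
      positivity
    have hn : 0 < ‖h‖ := norm_pos_iff.2 h0
    obtain ⟨a1, a2⟩ := line_hyp hα hg0 hC hin hmain hB hM hu hx (Z := ‖h‖⁻¹ • h) (ρ := 1) le_rfl
      (by rw [norm_smul, norm_inv, norm_norm, inv_mul_cancel₀ hn.ne']) hδ
    rw [div_one] at a1 a2
    have h1 := (hzyg δ (max (C * 1 ^ (1 + ε)) 1 * M)
      (fun t => u (G.mul (t • ‖h‖⁻¹ • h) x) - u x) hδ hδ1 (by positivity) a1 a2).1 ‖h‖ hn hh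
    beta_reduce at h1
    rw [smul_smul, mul_inv_cancel₀ hn.ne', one_smul] at h1
    rw [Real.rpow_one]
    calc _ ≤ _ := h1
      _ = _ := by ring
  · obtain ⟨R, hR, hRb⟩ := G.ball_bdd 0 r
    obtain ⟨ρ₀, hρ₀, hρb⟩ := G.Zc_bdd R
    set ρ : ℝ := max ρ₀ 1 with hρdef
    have hρ : 1 ≤ ρ := le_max_right _ _
    have hρ0 : 0 < ρ := by linarith
    have hδ' : 0 < δ / ρ := by positivity
    have hδ'1 : δ / ρ ≤ 1 := by
      rw [div_le_one hρ0]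
      linarith
    obtain ⟨J, hJ⟩ := exists_pow_lt_of_lt_one hδ' (show (1 / 2 : ℝ) < 1 by norm_num)
    have hJ2 : ((2 : ℝ) ^ J)⁻¹ ≤ δ / ρ := by
      have : ((2 : ℝ) ^ J)⁻¹ = (1 / 2) ^ J := by
        rw [one_div, inv_pow]
      rw [this]
      exact hJ.le
    have hpow : ∀ j, J ≤ j → ((2 : ℝ) ^ j)⁻¹ ≤ δ / ρ := by
      intro j hj
      refine le_trans ?_ hJ2
      apply inv_anti₀ (by positivity)
      exact pow_le_pow_right₀ one_le_two hj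
    have hm1 : (0 : ℝ) < max (C * ρ ^ (1 + ε)) 1 := lt_max_of_lt_right one_pos
    refine ⟨K / (δ / ρ) * max (C * ρ ^ (1 + ε)) 1, J, by positivity, ?_, ?_⟩
    · intro x hx k j hj
      rw [G.mul_smul_e]
      refine hin _ ?_ x hx
      rw [norm_smul, Real.norm_of_nonneg (by positivity)]
      have h1 : ‖G.Zc k x‖ ≤ ρ := (hρb k x (hRb x hx)).trans (le_max_left _ _)
      have h2 := hpow j hj
      rw [le_div_iff₀ hρ0] at h2
      have h3 : (0 : ℝ) ≤ ((2 : ℝ) ^ j)⁻¹ := by positivity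
      nlinarith
    · intro B M u F hB hM hu x hx k
      have hZ : ‖G.Zc k x‖ ≤ ρ := (hρb k x (hRb x hx)).trans (le_max_left _ _)
      obtain ⟨a1, a2⟩ := line_hyp hα hg0 hC hin hmain hB hM hu hx hρ hZ hδ
      obtain ⟨L, hL1, hL2⟩ := (hzyg (δ / ρ) (max (C * ρ ^ (1 + ε)) 1 * M)
        (fun t => u (G.mul (t • G.Zc k x) x) - u x) hδ' hδ'1 (by positivity) a1 a2).2
        ((2 : ℝ) ^ J)⁻¹ (by positivity) hJ2
      refine ⟨L, ?_, ?_⟩
      · calc |L| ≤ _ := hL1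
          _ = _ := by ring
      · intro j hj
        have h1 := hL2 (j - J)
        have h2 : ((2 : ℝ) ^ J)⁻¹ * ((2 : ℝ) ^ (j - J))⁻¹ = ((2 : ℝ) ^ j)⁻¹ := by
          rw [← mul_inv, ← pow_add]
          congr 2
          omega
        beta_reduce at h1
        rw [h2] at h1
        rw [G.mul_smul_e]
        have h3 : (u (G.mul (((2 : ℝ) ^ j)⁻¹ • G.Zc k x) x) - u x) / ((2 : ℝ) ^ j)⁻¹ =
            2 ^ j * (u (G.mul (((2 : ℝ) ^ j)⁻¹ • G.Zc k x) x) - u x) := by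
          rw [div_inv_eq_mul, mul_comm]
        rw [h3] at h1
        have h4 : (0 : ℝ) ≤ (((2 : ℝ) ^ j)⁻¹) ^ ε := Real.rpow_nonneg (by positivity) _
        have h5 : K ≤ K / (δ / ρ) := by
          rw [le_div_iff₀ hδ']
          nlinarith
        calc _ ≤ _ := h1
          _ ≤ K / (δ / ρ) * (max (C * ρ ^ (1 + ε)) 1 * M) * (((2 : ℝ) ^ j)⁻¹) ^ ε := by
            apply mul_le_mul_of_nonneg_right _ h4
            exact mul_le_mul_of_nonneg_right h5 (by positivity)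
          _ = _ := by ring

end Pool.Agent.CG
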