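import Pool.Agent.CG.D.Step
import Pool.Agent.CG.D.ZygA

/-!
# CG-D-Ind: the iteration

PLAN.  `a = α / st ∈ (0,1)` (`1 ≤ st`, cast).  Choose `K : ℕ`, `1 ≤ K`, with `a' := 2/(2K+1) ≤ a` (`exists_nat_gt (2/a)`), `ε = 1/(2K+1)`.
Radii `r k = 1/2 - k/(4 (K+1))`, `r (K+1) = 1/4`.  Claim for `1 ≤ k ≤ K`: `P1 (k a') (r k)`.  `k = 1`: `base` and `P1.mono`.
Step `k → k+1 ≤ K`: `step` gives `P2 (k a' + a) (r (k+1))`, `P2.mono` `P2 ((k+1) a') (r (k+1))`, `(k+1) a' ≤ 2K/(2K+1) < 1`, `P1_of_P2`.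
At `k = K`: `P2 ((K+1) a') (1/4)` with `(K+1) a' = 1 + ε`; `P3_of_P2`.
-/

set_option autoImplicit false

namespace Pool.Agent.CG

open MeasureTheory Set Filter Topology
open scoped ContDiff ENNReal

variable {N m : ℕ} {G : Carnot N m}

theorem exists_P3 {lam Lam α C : ℝ} (hlam : 0 < lam) (hLam : 0 ≤ Lam) (hα : 0 < α) (hα1 : α < 1)
    (hC : 0 < C) (hE : HolE G (4 * Lam ^ 2 / lam ^ 2) α C) :
    ∃ ε : ℝ, 0 < ε ∧ ε < 1 ∧ P1 G lam Lam α 1 (1 / 4) ∧ P3 G lam Lam α ε (1 / 4) := by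
  have hst : (1 : ℝ) ≤ G.st := by exact_mod_cast G.one_le_st
  have hst0 : (0 : ℝ) < G.st := lt_of_lt_of_le one_pos hst
  set a : ℝ := α / G.st with ha
  have ha0 : 0 < a := div_pos hα hst0
  obtain ⟨K, hK⟩ := exists_nat_gt (2 / a)
  have hK0 : (0 : ℝ) < K := lt_trans (by positivity) hK
  have hK1 : 1 ≤ K := by
    have : 0 < K := by exact_mod_cast hK0
    omega
  set D : ℝ := 2 * K + 1 with hD
  have hD0 : 0 < D := by positivity
  have haD : 2 / D ≤ a := by
    rw [div_lt_iff₀ ha0] at hK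
    rw [div_le_iff₀ hD0, hD]
    nlinarith
  -- radii
  set r : ℕ → ℝ := fun k => 1 / 2 - k / (4 * (K + 1)) with hr
  have hrdec : ∀ k : ℕ, r (k + 1) < r k := by
    intro k
    simp only [hr]
    have h1 : (k : ℝ) / (4 * (K + 1)) < ((k + 1 : ℕ) : ℝ) / (4 * (K + 1)) := by
      apply div_lt_div_of_pos_right _ (by positivity)
      push_cast
      linarith
    linarith
  have hrlt : ∀ k : ℕ, 1 ≤ k → r k < 1 / 2 := by
    intro k hk
    simp only [hr]
    have hk0 : (0 : ℝ) < k := by exact_mod_cast hk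
    have h1 : (0 : ℝ) < (k : ℝ) / (4 * (K + 1)) := by positivity
    linarith
  have hrK : r (K + 1) = 1 / 4 := by
    simp only [hr]
    push_cast
    field_simp
    ring
  have claim : ∀ k : ℕ, 1 ≤ k → k ≤ K → P1 G lam Lam α (k * (2 / D)) (r k) := by
    intro k hk
    induction k, hk using Nat.le_induction with
    | base =>
      intro _
      have h1 : P1 G lam Lam α (α / G.st) (r 1) := base G hα (hrlt 1 le_rfl)
      refine P1.mono h1 (by positivity) ?_ le_rfl
      rw [Nat.cast_one, one_mul]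
      exact haD
    | succ k hk ih =>
      intro hk2
      have h1 := ih (by omega)
      have hkpos : (0 : ℝ) < k := by exact_mod_cast hk
      have h2 := step hlam hLam hα hC hE (by positivity : (0 : ℝ) < k * (2 / D)) (hrdec k) h1
      have h3 : P2 G lam Lam α (((k + 1 : ℕ) : ℝ) * (2 / D)) (r (k + 1)) := by
        refine P2.mono h2 (by positivity) ?_ le_rfl
        push_cast
        have : 2 / D ≤ α / G.st := haD
        linarith
      refine P1_of_P2 hα (by positivity) ?_ h3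
      have hkK : (((k + 1 : ℕ) : ℝ)) ≤ K := by exact_mod_cast hk2
      rw [mul_div_assoc', div_lt_one hD0, hD]
      linarith
  have h1 := claim K hK1 le_rfl
  have h2 := step hlam hLam hα hC hE (by positivity : (0 : ℝ) < K * (2 / D)) (hrdec K) h1
  rw [hrK] at h2
  have h3 : P2 G lam Lam α (1 + 1 / D) (1 / 4) := by
    refine P2.mono h2 (by positivity) ?_ le_rfl
    have e1 : 1 + 1 / D = K * (2 / D) + 2 / D := by
      rw [hD]
      field_simp
      ring
    rw [e1]
    have : 2 / D ≤ α / G.st := haD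
    linarith
  have hε0 : 0 < 1 / D := by positivity
  obtain ⟨h4, h5⟩ := P3_of_P2 hα hε0 h3
  refine ⟨1 / D, hε0, ?_, h4, h5⟩
  rw [div_lt_one hD0, hD]
  linarith

end Pool.Agent.CG
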