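import Pool.Agent.CG.D.Small

/-!
# CG-D-Scale: the small ball theorem on arbitrary balls, in terms of the gradient

PLAN.  `s = R/4`.  `HW.poincare` on `B x R`: `c` with `∫_{B x s} (w - c)² ≤ C_P R² ∫_{B x R} ‖F‖²`.  Put
`w̃ y = s⁻¹ * (w (mul x (del s y)) - c)`, `F̃ y = F (mul x (del s y))`: a solution on
`{y | mul x (del s y) ∈ B x R} ⊇ B 0 1` (`Sol.left`, `Sol.scale`, `preimage_left_B`, `preimage_del_B` with `mul x 0 = x`, `del s 0 = 0`;
subtracting the constant: `HW.add_const`; `Sol` only involves `F` in the equation).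
`∫_{B 0 1} w̃² = s⁻² s^{-Q} ∫_{B x s} (w - c)²` (`G.mp_left`, `G.integral_del` / `G.map_del` with the indicator of `B 0 1`) `≤ M²`,
`M² = 4^(2+Q)·C_P (R⁻¹^Q ∫_{B x R} ‖F‖²)`.  `uu_small` gives `F̃'`; `F' z := F̃' (del s⁻¹ (mul (-x) z))`; a.e. equality on `B x (s/8) = B x (R/32)` (the map
`z ↦ del s⁻¹ (mul (-x) z)` is quasi measure preserving), `di (..) (..) = s⁻¹ di y z` (`di_left`, `di_del`); `(s⁻¹)^β = (4/R)^β`.
Square the estimates.
-/

set_option autoImplicit false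

namespace Pool.Agent.CG

open MeasureTheory Set Filter Topology
open scoped ContDiff ENNReal

variable {N m : ℕ}

/-- `y ↦ x · δ_s y` -/
private noncomputable def sT (G : Carnot N m) (x : Pt N) (s : ℝ) (y : Pt N) : Pt N := G.mul x (G.del s y)

/-- its inverse -/
private noncomputable def sI (G : Carnot N m) (x : Pt N) (s : ℝ) (z : Pt N) : Pt N := G.del s⁻¹ (G.mul (-x) z)

private theorem sT_sI (G : Carnot N m) (x : Pt N) {s : ℝ} (hs : 0 < s) (z : Pt N) :
    sT G x s (sI G x s z) = z := by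
  unfold sT sI
  rw [G.del_del_inv hs.ne', G.mul_neg_mul]

private theorem sT_emb (G : Carnot N m) (x : Pt N) {s : ℝ} (hs : 0 < s) :
    MeasurableEmbedding (sT G x s) :=
  (G.homeoL x).measurableEmbedding.comp (G.homeoD s hs.ne').measurableEmbedding

private theorem sT_map (G : Carnot N m) (x : Pt N) {s : ℝ} (hs : 0 < s) :
    Measure.map (sT G x s) (volume : Measure (Pt N)) = ENNReal.ofReal (s⁻¹ ^ G.Q) • volume := by
  have h1 : sT G x s = (fun y => G.mul x y) ∘ G.del s := rfl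
  rw [h1, ← Measure.map_map (G.continuous_left x).measurable (G.continuous_del s).measurable,
    G.map_del hs, Measure.map_smul, (G.mp_left x).map_eq]

private theorem sT_di (G : Carnot N m) (x : Pt N) {s : ℝ} (hs : 0 < s) (y : Pt N) :
    G.di x (sT G x s y) = s * G.di 0 y := by
  have h1 : G.di x (sT G x s y) = G.di (G.mul x 0) (G.mul x (G.del s y)) := by
    rw [G.mul_zero]; rfl
  have h2 : G.di 0 (G.del s y) = G.di (G.del s 0) (G.del s y) := by rw [G.del_zero]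
  rw [h1, G.di_left, h2, G.di_del hs]

private theorem sI_di (G : Carnot N m) (x : Pt N) {s : ℝ} (hs : 0 < s) (y z : Pt N) :
    G.di (sI G x s y) (sI G x s z) = s⁻¹ * G.di y z := by
  unfold sI
  rw [G.di_del (inv_pos.2 hs), G.di_left]

private theorem sI_di0 (G : Carnot N m) (x : Pt N) {s : ℝ} (hs : 0 < s) (z : Pt N) :
    G.di 0 (sI G x s z) = s⁻¹ * G.di x z := by
  have h1 : sI G x s x = 0 := by
    unfold sI
    rw [G.neg_mul, G.del_zero]
  rw [← h1, sI_di G x hs]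

private theorem sT_B (G : Carnot N m) (x : Pt N) {s : ℝ} (hs : 0 < s) (y : Pt N) :
    sT G x s y ∈ G.B x s ↔ y ∈ G.B 0 1 := by
  rw [Carnot.mem_B, Carnot.mem_B, sT_di G x hs]
  constructor
  · intro h
    nlinarith
  · intro h
    nlinarith

/-- change of variables -/
private theorem sT_int (G : Carnot N m) (x : Pt N) {s : ℝ} (hs : 0 < s) (f : Pt N → ℝ) :
    ∫ y in G.B 0 1, f (sT G x s y) = (s⁻¹ ^ G.Q : ℝ) * ∫ z in G.B x s, f z := by
  have h1 : ∀ y, (G.B 0 1).indicator (fun y => f (sT G x s y)) y =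
      (G.B x s).indicator f (sT G x s y) := by
    intro y
    by_cases hy : y ∈ G.B 0 1
    · rw [Set.indicator_of_mem hy, Set.indicator_of_mem ((sT_B G x hs y).2 hy)]
    · rw [Set.indicator_of_notMem hy, Set.indicator_of_notMem (fun h => hy ((sT_B G x hs y).1 h))]
  rw [← integral_indicator (G.isOpen_B 0 1).measurableSet,
    ← integral_indicator (G.isOpen_B x s).measurableSet]
  have h2 : ∫ y, (G.B 0 1).indicator (fun y => f (sT G x s y)) y =
      ∫ y, (G.B x s).indicator f (sT G x s y) := integral_congr_ae (Eventually.of_forall h1)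
  rw [h2, ← (sT_emb G x hs).integral_map, sT_map G x hs, integral_smul_measure,
    ENNReal.toReal_ofReal (by positivity), smul_eq_mul]

private theorem sT_integrable (G : Carnot N m) (x : Pt N) {s : ℝ} (hs : 0 < s) {f : Pt N → ℝ}
    (hf : IntegrableOn f (G.B x s)) : IntegrableOn (fun y => f (sT G x s y)) (G.B 0 1) := by
  have h1 : (G.B 0 1).indicator (fun y => f (sT G x s y)) =
      (G.B x s).indicator f ∘ (sT G x s) := by
    funext y
    by_cases hy : y ∈ G.B 0 1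
    · rw [Set.indicator_of_mem hy, Function.comp_apply,
        Set.indicator_of_mem ((sT_B G x hs y).2 hy)]
    · rw [Set.indicator_of_notMem hy, Function.comp_apply,
        Set.indicator_of_notMem (fun h => hy ((sT_B G x hs y).1 h))]
  rw [← integrable_indicator_iff (G.isOpen_B 0 1).measurableSet, h1,
    ← (sT_emb G x hs).integrable_map_iff, sT_map G x hs]
  exact ((integrable_indicator_iff (G.isOpen_B x s).measurableSet).2 hf).smul_measure
    ENNReal.ofReal_ne_top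

private theorem sI_qmp (G : Carnot N m) (x : Pt N) {s : ℝ} (hs : 0 < s) :
    Measure.QuasiMeasurePreserving (sI G x s) volume volume := by
  have h1 : Measure.QuasiMeasurePreserving (G.del s⁻¹) (volume : Measure (Pt N)) volume := by
    refine ⟨(G.continuous_del s⁻¹).measurable, ?_⟩
    rw [G.map_del (inv_pos.2 hs)]
    exact Measure.smul_absolutelyContinuous
  exact h1.comp (G.mp_left (-x)).quasiMeasurePreserving

private theorem test_mono {Ω Ω' : Set (Pt N)} (h : Ω ⊆ Ω') {φ : Pt N → ℝ} (hφ : Test Ω φ) :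
    Test Ω' φ := ⟨hφ.smooth, hφ.cpt, hφ.sub.trans h⟩

theorem uu_ball (G : Carnot N m) {lam Lam : ℝ} (hlam : 0 < lam) (hLam : 0 ≤ Lam) :
    ∃ β : ℝ, 0 < β ∧ β < 1 ∧ ∃ C : ℝ, 0 < C ∧ ∀ (x : Pt N) (R : ℝ), 0 < R →
    ∀ (B : Hv m → Hv m), UU lam Lam B → ∀ (w : Pt N → ℝ) (F : Pt N → Hv m),
    Sol G 2 (G.B x R) B w F → IntegrableOn (fun y => ‖F y‖ ^ 2) (G.B x R) →
    ∃ F' : Pt N → Hv m, (∀ᵐ y, y ∈ G.B x (R / 32) → F y = F' y) ∧
      (∀ y ∈ G.B x (R / 32), ‖F' y‖ ^ 2 ≤ C * (R⁻¹ ^ G.Q * ∫ z in G.B x R, ‖F z‖ ^ 2)) ∧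
      ∀ y ∈ G.B x (R / 32), ∀ z ∈ G.B x (R / 32),
        ‖F' y - F' z‖ ^ 2 ≤
          C * (G.di y z / R) ^ (2 * β) * (R⁻¹ ^ G.Q * ∫ z in G.B x R, ‖F z‖ ^ 2) := by
  obtain ⟨β, hβ0, hβ1, C0, hC0, hsmall⟩ := uu_small G hlam hLam
  obtain ⟨CP, hCP, hP⟩ := HW.poincare G
  refine ⟨β, hβ0, hβ1, C0 ^ 2 * (16 * CP * 4 ^ G.Q) * 16, by positivity, ?_⟩
  intro x R hR B hB w F hsol hint
  set I : ℝ := ∫ z in G.B x R, ‖F z‖ ^ 2 with hI
  have hI0 : 0 ≤ I := integral_nonneg fun y => by positivity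
  obtain ⟨c, hcint, hc⟩ := hP x R hR w F hsol.toHW hint
  set s : ℝ := R / 4 with hs
  have hs0 : 0 < s := by positivity
  have hsR : s ≤ R := by rw [hs]; linarith
  have hsinv : s⁻¹ = 4 * R⁻¹ := by rw [hs]; field_simp
  -- the rescaled solution
  have h1 : Sol G 2 (G.B x R) B (fun y => w y + (-c)) F :=
    ⟨hsol.toHW.add_const (by norm_num) (-c), hsol.eqn⟩
  have h3 := (h1.left x).scale hs0
  have hsub : G.B 0 1 ⊆ {y | G.del s y ∈ {y | G.mul x y ∈ G.B x R}} := by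
    intro y hy
    change sT G x s y ∈ G.B x R
    have h4 := (sT_B G x hs0 y).2 hy
    exact lt_of_lt_of_le h4 hsR
  have h4 : Sol G 2 (G.B 0 1) B (fun y => s⁻¹ * (w (sT G x s y) + (-c)))
      (fun y => F (sT G x s y)) :=
    ⟨h3.toHW.mono hsub, fun φ hφ => h3.eqn φ (test_mono hsub hφ)⟩
  -- the `L²` norm
  set K : ℝ := 16 * CP * 4 ^ G.Q * (R⁻¹ ^ G.Q * I) with hK
  have hK0 : 0 ≤ K := by positivity
  have hsq : ∀ y, (s⁻¹ * (w (sT G x s y) + (-c))) ^ 2 = s⁻¹ ^ 2 * (w (sT G x s y) - c) ^ 2 := by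
    intro y; ring
  have h5 : IntegrableOn (fun y => (s⁻¹ * (w (sT G x s y) + (-c))) ^ 2) (G.B 0 1) := by
    simp only [hsq]
    exact (sT_integrable G x hs0 (f := fun z => (w z - c) ^ 2) hcint).const_mul _
  have h6 : ∫ y in G.B 0 1, (s⁻¹ * (w (sT G x s y) + (-c))) ^ 2 ≤ (Real.sqrt K) ^ 2 := by
    rw [Real.sq_sqrt hK0]
    simp only [hsq]
    rw [integral_const_mul, sT_int G x hs0 (fun z => (w z - c) ^ 2)]
    calc s⁻¹ ^ 2 * (s⁻¹ ^ G.Q * ∫ z in G.B x s, (w z - c) ^ 2)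
        ≤ s⁻¹ ^ 2 * (s⁻¹ ^ G.Q * (CP * R ^ 2 * I)) := by gcongr
      _ = K := by
        rw [hK, hsinv, mul_pow, mul_pow]
        field_simp
        ring
  obtain ⟨F', hF1, hF2, hF3⟩ := hsmall B (Real.sqrt K) _ _ hB (Real.sqrt_nonneg K) h4 h5 h6
  have hball : ∀ y ∈ G.B x (R / 32), sI G x s y ∈ G.B 0 (1 / 8) := by
    intro y hy
    rw [Carnot.mem_B] at hy ⊢
    rw [sI_di0 G x hs0, hsinv]
    calc 4 * R⁻¹ * G.di x y < 4 * R⁻¹ * (R / 32) := by gcongr
      _ = 1 / 8 := by field_simp; norm_num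
  refine ⟨fun z => F' (sI G x s z), ?_, ?_, ?_⟩
  · have h7 := (sI_qmp G x hs0).ae hF1
    filter_upwards [h7] with z hz hzB
    have h8 := hz (hball z hzB)
    rw [sT_sI G x hs0] at h8
    exact h8
  · intro y hy
    have h7 := hF2 _ (hball y hy)
    have h8 : ‖F' (sI G x s y)‖ ^ 2 ≤ (C0 * Real.sqrt K) ^ 2 := by gcongr
    rw [mul_pow, Real.sq_sqrt hK0] at h8
    refine h8.trans ?_
    have h9 : 0 ≤ C0 ^ 2 * K := by positivity
    calc C0 ^ 2 * K ≤ (C0 ^ 2 * K) * 16 := by linarith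
      _ = _ := by rw [hK]; ring
  · intro y hy z hz
    have h7 := hF3 _ (hball y hy) _ (hball z hz)
    rw [sI_di G x hs0, hsinv] at h7
    have hd : 0 ≤ G.di y z / R := div_nonneg (G.di_nonneg y z) hR.le
    have he : 4 * R⁻¹ * G.di y z = 4 * (G.di y z / R) := by field_simp
    rw [he] at h7
    have h8 : ‖F' (sI G x s y) - F' (sI G x s z)‖ ^ 2 ≤
        (C0 * Real.sqrt K * (4 * (G.di y z / R)) ^ β) ^ 2 := by gcongr
    refine h8.trans ?_
    rw [mul_pow, mul_pow, Real.sq_sqrt hK0]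
    have h9 : ((4 * (G.di y z / R)) ^ β) ^ 2 = 4 ^ (2 * β) * (G.di y z / R) ^ (2 * β) := by
      rw [← Real.rpow_natCast, ← Real.rpow_mul (by positivity), Real.mul_rpow (by norm_num) hd]
      norm_num [mul_comm]
    have h10 : (4 : ℝ) ^ (2 * β) ≤ 16 := by
      calc (4 : ℝ) ^ (2 * β) ≤ 4 ^ (2 : ℝ) :=
            Real.rpow_le_rpow_of_exponent_le (by norm_num) (by linarith)
        _ = 16 := by norm_num
    rw [h9]
    calc C0 ^ 2 * K * (4 ^ (2 * β) * (G.di y z / R) ^ (2 * β))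
        ≤ C0 ^ 2 * K * (16 * (G.di y z / R) ^ (2 * β)) := by gcongr
      _ = _ := by rw [hK]; ring

end Pool.Agent.CG
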