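import Pool.Agent.CG.D.Ind
import Pool.Agent.CG.D.Hol
import Pool.Agent.CG.C.Hol

/-!
# CG-D-Small: the regularity theorem on a small ball, in terms of the `L²` norm of the solution

PLAN.  `uu_small` (with `0 ≤ Lam`): `dg_holder G (4 Lam²/lam²)` gives `α, C` with `HolE` (it is literally `HolE`); `start`; `exists_P3`; `V_holder` with
`r = 1/4`, `r' = 1/8`; `F = F'` a.e. on `B 0 (1/4)`; `‖x - y‖ ≤ C di x y` on `B 0 1` (`ball_bdd`, `norm_le_di`), so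
`‖x - y‖^(ε/2) ≤ C' di^(ε/2)`; `β = ε/2`.
-/

set_option autoImplicit false

namespace Pool.Agent.CG

open MeasureTheory Set Filter Topology
open scoped ContDiff ENNReal

variable {N m : ℕ}

theorem uu_small (G : Carnot N m) {lam Lam : ℝ} (hlam : 0 < lam) (hLam : 0 ≤ Lam) :
    ∃ β : ℝ, 0 < β ∧ β < 1 ∧ ∃ C : ℝ, 0 < C ∧ ∀ (B : Hv m → Hv m) (M : ℝ) (w : Pt N → ℝ)
      (F : Pt N → Hv m), UU lam Lam B → 0 ≤ M → Sol G 2 (G.B 0 1) B w F →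
      IntegrableOn (fun y => w y ^ 2) (G.B 0 1) → ∫ y in G.B 0 1, w y ^ 2 ≤ M ^ 2 →
      ∃ F' : Pt N → Hv m, (∀ᵐ y, y ∈ G.B 0 (1 / 8) → F y = F' y) ∧
        (∀ y ∈ G.B 0 (1 / 8), ‖F' y‖ ≤ C * M) ∧
        ∀ y ∈ G.B 0 (1 / 8), ∀ z ∈ G.B 0 (1 / 8), ‖F' y - F' z‖ ≤ C * M * G.di y z ^ β := by
  obtain ⟨α, hα, hα1, C0, hC0, hE⟩ := dg_holder G (4 * Lam ^ 2 / lam ^ 2)
  have hHE : HolE G (4 * Lam ^ 2 / lam ^ 2) α C0 := hE
  obtain ⟨C1, hC1, hst⟩ := start hlam hLam hα hC0 hHE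
  obtain ⟨ε, hε0, hε1, h1, h3⟩ := exists_P3 hlam hLam hα hα1 hC0 hHE
  obtain ⟨C2, hC2, hV⟩ := V_holder (r' := 1 / 8) hα hε0 hε1 (by norm_num) h1 h3
  obtain ⟨R, hR, hbd⟩ := G.ball_bdd 0 (1 / 8)
  obtain ⟨C3, hC3, hnd⟩ := G.norm_le_di R
  refine ⟨ε / 2, by positivity, by linarith, C2 * C1 * (1 + C3 ^ (ε / 2)), by positivity, ?_⟩
  intro B M w F hB hM hw hi hwM
  obtain ⟨u, hwu, hGd⟩ := hst B M w F hB hM hw hi hwM
  have hM' : 0 ≤ C1 * M := by positivity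
  obtain ⟨V, hFV, hVs, hVh⟩ := hV B (C1 * M) u F hB hM' hGd
  have hp : 0 ≤ C3 ^ (ε / 2) := by positivity
  have hCM : 0 ≤ C2 * (C1 * M) := by positivity
  refine ⟨V, ?_, ?_, ?_⟩
  · filter_upwards [hFV] with y hy hyB
    refine hy ?_
    have h5 : G.di 0 y < 1 / 8 := hyB
    show G.di 0 y < 1 / 4
    linarith
  · intro y hy
    refine (hVs y hy).trans ?_
    nlinarith [mul_nonneg hCM hp]
  · intro y hy z hz
    refine (hVh y hy z hz).trans ?_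
    have hd := hnd y z (hbd y hy) (hbd z hz)
    have hdi : 0 ≤ G.di y z := G.di_nonneg y z
    have h6 : ‖y - z‖ ^ (ε / 2) ≤ C3 ^ (ε / 2) * G.di y z ^ (ε / 2) := by
      rw [← Real.mul_rpow hC3.le hdi]
      exact Real.rpow_le_rpow (norm_nonneg _) hd (by positivity)
    have h7 : 0 ≤ G.di y z ^ (ε / 2) := Real.rpow_nonneg hdi _
    calc C2 * (C1 * M) * ‖y - z‖ ^ (ε / 2)
        ≤ C2 * (C1 * M) * (C3 ^ (ε / 2) * G.di y z ^ (ε / 2)) :=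
          mul_le_mul_of_nonneg_left h6 hCM
      _ ≤ C2 * C1 * (1 + C3 ^ (ε / 2)) * M * G.di y z ^ (ε / 2) := by
          nlinarith [mul_nonneg hCM h7]

end Pool.Agent.CG
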