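import Pool.Agent.CG.D.Start

/-!
# CG-D-Step: from first differences of order `g` to second differences of order `g + α/st`

PLAN.  Let `C₁, δ₁` be the constants of `P1 g r`, `ρ = (r - r')/2 > 0` (may assume `ρ ≤ 1`), `C₂` the constant of `di_left_small 0 r`.
Let `h` be small, `x ∈ B 0 r'`, `v y = u (mul h y) - u y`, `V y = F (mul h y) - F y` on `B x ρ ⊆ B 0 r` (triangle inequality).
`diff_dg` with `Ω' = B x ρ`, `Ω = B 0 (1/2)` (inclusions by `P1`) gives the `DG` hypotheses of `HolE`; `|v| ≤ C₁ M ‖h‖^g` on `B x ρ`; `v` is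
continuous on `B x ρ` (`Gd.cont`), so `v²` is integrable and `∫ v² ≤ (C₁ M ‖h‖^g)^2 * vol (B 0 1)` (`vol_B`, `ρ ≤ 1`).
`HolE`: `v'` on `B x (ρ/2)`, `v = v'` a.e.; `v'` is continuous there (Hölder, `di` is continuous), so `v = v'` on the open ball
(`Measure.eqOn_open_of_ae_eq` or similar; isOpen_B, volume is positive on open sets).
For `‖h‖` small `di x (mul h x) ≤ C₂ ‖h‖^(1/st) < ρ/2` and then
`|v (mul h x) - v x|^2 ≤ C (di/ρ)^(2α) ρ^{-Q} ∫ v² ≤ (C₃ M ‖h‖^(g + α/st))^2`, and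
`v (mul h x) - v x = u (mul h (mul h x)) - 2 u (mul h x) + u x`, `mul_two_smul`.  For the inclusion in `P2` use `left_small`
(`r' < r`, and `B 0 r ⊆ B 0 (1/2)` follows from the inclusion in `P1` with `h = 0`); choose `δ` with `2 δ` small.
-/

set_option autoImplicit false

namespace Pool.Agent.CG

open MeasureTheory Set Filter Topology
open scoped ContDiff ENNReal

variable {N m : ℕ} {G : Carnot N m}

private theorem pow_two_mul {x a : ℝ} (hx : 0 ≤ x) : x ^ (2 * a) = (x ^ a) ^ 2 := by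
  rw [mul_comm, Real.rpow_mul hx, Real.rpow_two]

theorem step {lam Lam α C g r r' : ℝ} (hlam : 0 < lam) (hLam : 0 ≤ Lam) (hα : 0 < α) (hC : 0 < C)
    (hE : HolE G (4 * Lam ^ 2 / lam ^ 2) α C) (hg : 0 < g) (hr : r' < r)
    (h : P1 G lam Lam α g r) : P2 G lam Lam α (g + α / G.st) r' := by
  obtain ⟨C₁, δ₁, hC₁, hδ₁, hδ₁1, hinc, hbd⟩ := h
  obtain ⟨C₂, hC₂, hsm⟩ := G.di_left_small 0 r'
  have hst : (0 : ℝ) < G.st := by
    have := G.one_le_st
    exact_mod_cast (by omega : 0 < G.st)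
  have hst0 : G.st ≠ 0 := by
    have := G.one_le_st
    omega
  set ρ : ℝ := min ((r - r') / 2) 1 with hρ
  have hρ0 : 0 < ρ := lt_min (by linarith) one_pos
  have hρ1 : ρ ≤ (r - r') / 2 := min_le_left _ _
  set W : ℝ := volume.real (G.B 0 1) with hW
  have hW0 : 0 ≤ W := measureReal_nonneg
  set δ : ℝ := min (δ₁ / 2) ((ρ / (4 * C₂)) ^ G.st) with hδ
  have hδ0 : 0 < δ := lt_min (by linarith) (by positivity)
  have hδ2 : 2 * δ ≤ δ₁ := by
    have : δ ≤ δ₁ / 2 := min_le_left _ _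
    linarith
  have hδst : ∀ h : Pt N, ‖h‖ ≤ δ → C₂ * ‖h‖ ^ ((1 : ℝ) / G.st) ≤ ρ / 4 := by
    intro h hh
    have h1 : ‖h‖ ^ ((1 : ℝ) / G.st) ≤ ρ / (4 * C₂) := by
      calc ‖h‖ ^ ((1 : ℝ) / G.st) ≤ ((ρ / (4 * C₂)) ^ G.st) ^ ((1 : ℝ) / G.st) :=
            Real.rpow_le_rpow (norm_nonneg _) (hh.trans (min_le_right _ _)) (by positivity)
        _ = ρ / (4 * C₂) := by
            rw [one_div]
            exact Real.pow_rpow_inv_natCast (by positivity) hst0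
    calc C₂ * ‖h‖ ^ ((1 : ℝ) / G.st) ≤ C₂ * (ρ / (4 * C₂)) := by gcongr
      _ = ρ / 4 := by field_simp
  have hsub0 : G.B 0 r' ⊆ G.B 0 r := fun x hx => lt_trans hx hr
  have hsub1 : G.B 0 r ⊆ G.B 0 (1 / 2) := by
    intro x hx
    have := hinc 0 (by rw [norm_zero]; exact hδ₁.le) x hx
    rwa [G.zero_mul] at this
  refine ⟨Real.sqrt (C * W) * (C₂ / ρ) ^ α * C₁ + 1, δ, by positivity, hδ0, by linarith, ?_, ?_⟩
  · intro h hh x hx
    exact hinc h (hh.trans hδ2) x (hsub0 hx)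
  intro B M u F hB hM hu h hh x hx
  have hh1 : ‖h‖ ≤ δ₁ := by linarith
  have hsubx : G.B x ρ ⊆ G.B 0 r := by
    intro y hy
    have h1 : G.di 0 y ≤ G.di 0 x + G.di x y := G.di_triangle 0 x y
    have h2 : G.di 0 x < r' := hx
    have h3 : G.di x y < ρ := hy
    change G.di 0 y < r
    linarith
  have hdg := fun k0 : ℝ => diff_dg hlam hLam hB (G.isOpen_B x ρ) (hsubx.trans hsub1) hu.sol
    (fun y hy => hinc h hh1 y (hsubx hy)) k0
  -- the difference
  have hvc : ContinuousOn (fun y => u (G.mul h y) - u y) (G.B x ρ) := by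
    refine ContinuousOn.sub ?_ ((hu.cont hα).mono (hsubx.trans hsub1))
    exact (hu.cont hα).comp (G.continuous_left h).continuousOn
      fun y hy => hinc h hh1 y (hsubx hy)
  have hA0 : 0 ≤ C₁ * M * ‖h‖ ^ g := by positivity
  have hvb : ∀ y ∈ G.B x ρ, |u (G.mul h y) - u y| ≤ C₁ * M * ‖h‖ ^ g := fun y hy =>
    hbd B M u F hB hM hu h hh1 y (hsubx hy)
  have hmB : MeasurableSet (G.B x ρ) := (G.isOpen_B x ρ).measurableSet
  have hvi : IntegrableOn (fun y => (u (G.mul h y) - u y) ^ 2) (G.B x ρ) := by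
    refine IntegrableOn.of_bound (G.vol_B_lt_top x ρ) ((hvc.pow 2).aestronglyMeasurable hmB)
      ((C₁ * M * ‖h‖ ^ g) ^ 2) ?_
    refine (ae_restrict_mem hmB).mono fun y hy => ?_
    rw [Real.norm_eq_abs, abs_of_nonneg (sq_nonneg _), ← sq_abs]
    exact pow_le_pow_left₀ (abs_nonneg _) (hvb y hy) 2
  have hvol : volume.real (G.B x ρ) = ρ ^ G.Q * W := by
    rw [measureReal_def, G.vol_B x hρ0, ENNReal.toReal_mul, ENNReal.toReal_ofReal (by positivity)]
    rfl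
  have hI : ρ⁻¹ ^ G.Q * ∫ y in G.B x ρ, (u (G.mul h y) - u y) ^ 2 ≤
      (C₁ * M * ‖h‖ ^ g) ^ 2 * W := by
    have h1 : ∫ y in G.B x ρ, (u (G.mul h y) - u y) ^ 2 ≤
        (C₁ * M * ‖h‖ ^ g) ^ 2 * (ρ ^ G.Q * W) := by
      rw [← hvol]
      have h2 := norm_setIntegral_le_of_norm_le_const (μ := volume) (G.vol_B_lt_top x ρ)
        (f := fun y => (u (G.mul h y) - u y) ^ 2) (C := (C₁ * M * ‖h‖ ^ g) ^ 2) (by
          intro y hy
          rw [Real.norm_eq_abs, abs_of_nonneg (sq_nonneg _), ← sq_abs]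
          exact pow_le_pow_left₀ (abs_nonneg _) (hvb y hy) 2)
      exact (le_abs_self _).trans h2
    calc ρ⁻¹ ^ G.Q * ∫ y in G.B x ρ, (u (G.mul h y) - u y) ^ 2 ≤
        ρ⁻¹ ^ G.Q * ((C₁ * M * ‖h‖ ^ g) ^ 2 * (ρ ^ G.Q * W)) := by gcongr
      _ = (ρ⁻¹ * ρ) ^ G.Q * ((C₁ * M * ‖h‖ ^ g) ^ 2 * W) := by rw [mul_pow]; ring
      _ = _ := by rw [inv_mul_cancel₀ hρ0.ne', one_pow, one_mul]
  obtain ⟨v', hae, -, hhol⟩ := hE x ρ hρ0 (fun y => u (G.mul h y) - u y)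
    (fun y => F (G.mul h y) - F y) (fun k0 => (hdg k0).1) (fun k0 => (hdg k0).2) hvi
  set I0 : ℝ := ρ⁻¹ ^ G.Q * ∫ y in G.B x ρ, (u (G.mul h y) - u y) ^ 2 with hI0
  have hI00 : 0 ≤ I0 := by
    have : 0 ≤ ∫ y in G.B x ρ, (u (G.mul h y) - u y) ^ 2 :=
      integral_nonneg fun y => sq_nonneg _
    positivity
  -- continuity of `v'`
  have hv'c : ContinuousOn v' (G.B x (ρ / 2)) := by
    intro z hz
    rw [ContinuousWithinAt, tendsto_iff_norm_sub_tendsto_zero]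
    have h1 : Tendsto (fun y => Real.sqrt (C * (G.di y z / ρ) ^ (2 * α) * I0))
        (𝓝[G.B x (ρ / 2)] z) (𝓝 0) := by
      have h2 : Continuous fun y => Real.sqrt (C * (G.di y z / ρ) ^ (2 * α) * I0) := by
        have h3 : Continuous fun y => G.di y z := G.continuous_di.comp (continuous_id.prodMk
          continuous_const)
        refine Real.continuous_sqrt.comp ((continuous_const.mul ?_).mul continuous_const)
        exact (h3.div_const ρ).rpow_const fun y => Or.inr (by positivity)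
      have h4 := h2.tendsto z
      rw [G.di_self, zero_div, Real.zero_rpow (by positivity), MulZeroClass.mul_zero,
        MulZeroClass.zero_mul, Real.sqrt_zero] at h4
      exact h4.mono_left nhdsWithin_le_nhds
    refine squeeze_zero' (Filter.Eventually.of_forall fun y => norm_nonneg _) ?_ h1
    filter_upwards [self_mem_nhdsWithin] with y hy
    rw [Real.norm_eq_abs]
    exact Real.le_sqrt_of_sq_le (hhol y hy z hz)
  have hsub2 : G.B x (ρ / 2) ⊆ G.B x ρ := by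
    intro y hy
    have h1 : G.di x y < ρ / 2 := hy
    change G.di x y < ρ
    linarith
  have heq : Set.EqOn (fun y => u (G.mul h y) - u y) v' (G.B x (ρ / 2)) := by
    refine Measure.eqOn_open_of_ae_eq (μ := volume) ?_ (G.isOpen_B x (ρ / 2)) (hvc.mono hsub2) hv'c
    exact (ae_restrict_iff' (G.isOpen_B x (ρ / 2)).measurableSet).2 hae
  have hh1' : ‖h‖ ≤ 1 := hh1.trans hδ₁1
  have hd := hsm x hx h hh1'
  have hd2 := hδst h hh
  have hxx : x ∈ G.B x (ρ / 2) := by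
    change G.di x x < ρ / 2
    rw [G.di_self]; linarith
  have hhx : G.mul h x ∈ G.B x (ρ / 2) := by
    change G.di x (G.mul h x) < ρ / 2
    linarith
  have h5 := hhol _ hhx _ hxx
  rw [← heq hhx, ← heq hxx] at h5
  simp only at h5
  have h6 : u (G.mul ((2 : ℝ) • h) x) - 2 * u (G.mul h x) + u x =
      u (G.mul h (G.mul h x)) - u (G.mul h x) - (u (G.mul h x) - u x) := by
    rw [G.mul_two_smul]; ring
  rw [h6]
  have hX0 : 0 ≤ Real.sqrt (C * W) * (C₂ / ρ) ^ α * C₁ * M * ‖h‖ ^ (g + α / G.st) := by positivity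
  have h7 : |u (G.mul h (G.mul h x)) - u (G.mul h x) - (u (G.mul h x) - u x)| ≤
      Real.sqrt (C * W) * (C₂ / ρ) ^ α * C₁ * M * ‖h‖ ^ (g + α / G.st) := by
    refine (sq_le_sq₀ (abs_nonneg _) hX0).1 (h5.trans ?_)
    have h8 : (G.di (G.mul h x) x / ρ) ^ (2 * α) ≤
        ((C₂ / ρ) ^ α) ^ 2 * (‖h‖ ^ (α / G.st)) ^ 2 := by
      have h9 : G.di (G.mul h x) x / ρ ≤ C₂ / ρ * ‖h‖ ^ ((1 : ℝ) / G.st) := by
        rw [G.di_comm, div_mul_eq_mul_div]
        gcongr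
      have h10 : 0 ≤ G.di (G.mul h x) x / ρ := div_nonneg (G.di_nonneg _ _) hρ0.le
      calc (G.di (G.mul h x) x / ρ) ^ (2 * α) ≤
          (C₂ / ρ * ‖h‖ ^ ((1 : ℝ) / G.st)) ^ (2 * α) :=
            Real.rpow_le_rpow h10 h9 (by positivity)
        _ = ((C₂ / ρ) ^ α) ^ 2 * (‖h‖ ^ (α / G.st)) ^ 2 := by
            rw [pow_two_mul (by positivity), Real.mul_rpow (by positivity) (by positivity),
              ← Real.rpow_mul (norm_nonneg _), mul_pow]
            congr 3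
            field_simp
    calc C * (G.di (G.mul h x) x / ρ) ^ (2 * α) * I0 ≤
        C * (((C₂ / ρ) ^ α) ^ 2 * (‖h‖ ^ (α / G.st)) ^ 2) * ((C₁ * M * ‖h‖ ^ g) ^ 2 * W) := by
          gcongr
      _ = (Real.sqrt (C * W) * (C₂ / ρ) ^ α * C₁ * M * ‖h‖ ^ (g + α / G.st)) ^ 2 := by
          rw [Real.rpow_add_of_nonneg (norm_nonneg _) hg.le (by positivity)]
          have h11 : Real.sqrt (C * W) ^ 2 = C * W := Real.sq_sqrt (by positivity)
          calc C * (((C₂ / ρ) ^ α) ^ 2 * (‖h‖ ^ (α / G.st)) ^ 2) * ((C₁ * M * ‖h‖ ^ g) ^ 2 * W) =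
              (C * W) * (((C₂ / ρ) ^ α) * (‖h‖ ^ (α / G.st)) * (C₁ * M * ‖h‖ ^ g)) ^ 2 := by ring
            _ = Real.sqrt (C * W) ^ 2 *
                (((C₂ / ρ) ^ α) * (‖h‖ ^ (α / G.st)) * (C₁ * M * ‖h‖ ^ g)) ^ 2 := by rw [h11]
            _ = _ := by ring
  have hN0 : 0 ≤ ‖h‖ ^ (g + α / G.st) := Real.rpow_nonneg (norm_nonneg _) _
  calc _ ≤ _ := h7
    _ ≤ (Real.sqrt (C * W) * (C₂ / ρ) ^ α * C₁ + 1) * M * ‖h‖ ^ (g + α / G.st) := by
      have : 0 ≤ M * ‖h‖ ^ (g + α / G.st) := mul_nonneg hM hN0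
      nlinarith

end Pool.Agent.CG
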